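import Pool.Agent.KS6_21.P1.Step

/-!
Change of the family of functions: sums and products; roots. The functions which are not changed
keep their normal form.
-/

set_option autoImplicit false
set_option linter.unusedVariables false
set_option linter.unusedSectionVars false

universe u w

open Polynomial Pool.Agent.W558 Pool.Agent.W177.WD Pool.Agent.TH188.WQ Pool.Agent.TH188.WP

namespace Pool.Agent.KS6_21.P1

section bj

variable {k L : Type u} [Field k] [Field L] [Algebra k L] {T0 I0 : Type} [Fintype I0]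
  {ι ι2 : Type}

/-- Linear combinations of logarithmic tangent vectors with arbitrary values of the forms. -/
lemma exists_lt_values {A : Subalgebra k L} {κ : Type u} [Field κ] [Algebra k κ]
    {φ : A →ₐ[k] κ} {x : I0 → L} {J : Type} [Fintype J] (W : J → LT φ x → κ)
    (hW : ∀ j c d v w, W j (lc c d v w) = c * W j v + d * W j w)
    (h : ∀ j, ∃ v, W j v ≠ 0 ∧ ∀ l, l ≠ j → W l v = 0) (ξ : J → κ) : ∃ v, ∀ j, W j v = ξ j := by
  classical
  choose v hv1 hv2 using h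
  have key : ∀ S : Finset J, ∃ w : LT φ x, ∀ j, W j w = if j ∈ S then ξ j else 0 := by
    intro S
    induction S using Finset.induction_on with
    | empty =>
      by_cases hi : Nonempty J
      · obtain ⟨j⟩ := hi
        refine ⟨lc 0 0 (v j) (v j), fun l => ?_⟩
        rw [hW]
        simp
      · refine ⟨⟨TV.zero φ, fun _ => 0, fun i hi => by simp⟩, fun l => absurd ⟨l⟩ hi⟩
    | insert a S ha ih =>
      obtain ⟨w, hw⟩ := ih
      refine ⟨lc 1 (ξ a / W a (v a)) w (v a), fun j => ?_⟩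
      rw [hW, hw, one_mul]
      by_cases hj : j = a
      · subst hj
        rw [if_neg ha, if_pos (Finset.mem_insert_self _ _), div_mul_cancel₀ _ (hv1 j), zero_add]
      · rw [hv2 a j hj, mul_zero, add_zero]
        simp only [Finset.mem_insert, hj, false_or]
  obtain ⟨w, hw⟩ := key Finset.univ
  exact ⟨w, fun j => by rw [hw, if_pos (Finset.mem_univ j)]⟩

/-- Additional functions on a model with a joint normal form. -/
structure BJ {M0 : LM (⊥ : Subalgebra k L) ⊤ T0 I0} {n e : ι → I0 → ℤ} {h s : T0 → ι → L}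
    (p : ℕ) (hB : BD M0 n e h s) (f2 : ι2 → L) (n2 : ι2 → I0 → ℤ) (a2 h2 : T0 → ι2 → L) : Prop where
  hA : ∀ t j, h2 t j ∈ M0.A t
  eq : ∀ t j, f2 j = a2 t j ^ p + (∏ i, M0.x t i ^ n2 j i) * h2 t j
  sj : ∀ t (κ : Type u) [Field κ] [Algebra k κ] (φ : M0.A t →ₐ[k] κ) (ξ : ι → κ) (η : ι2 → κ),
    ∃ v : LT φ (M0.x t), (∀ j, hB.W v j = ξ j) ∧ ∀ l, om v (n2 l) (hA t l) = η l

variable {p : ℕ} {f : ι → L} {f2 : ι2 → L} {G : Type} {g : G → L}

lemma om_lc' {A : Subalgebra k L} {κ : Type u} [Field κ] [Algebra k κ]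
    {φ : A →ₐ[k] κ} {x : I0 → L} (n : I0 → ℤ) {h : L} (hh : h ∈ A) (c d : κ) (v w : LT φ x) :
    om (lc c d v w) n hh = c * om v n hh + d * om w n hh := om_lc c d v w n hh

/-- The additive case. -/
theorem bj_add [Fintype ι] [Fintype ι2] (h : GM p k (Sum.elim f f2) g) :
    ∃ (T0 I0 : Type) (_ : Finite T0) (_ : Fintype I0) (M0 : LM (⊥ : Subalgebra k L) ⊤ T0 I0)
      (n : ι → I0 → ℤ) (a h : T0 → ι → L) (Γ : G → I0 → ℤ) (hB : BD M0 n n h (fun _ _ => 1))
      (n2 : ι2 → I0 → ℤ) (a2 h2 : T0 → ι2 → L),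
      (∀ t j, f j = a t j ^ p + (∏ i, M0.x t i ^ n j i) * h t j) ∧ BJ p hB f2 n2 a2 h2 ∧
      Fn M0 g Γ ∧ Frc M0 := by
  obtain ⟨T0, I0, hT0, hI0, M0, n, a, h, Γ, hB, heq, hG, hR⟩ := bd_add h
  refine ⟨T0, I0, hT0, hI0, M0, fun j => n (Sum.inl j), fun t j => a t (Sum.inl j),
    fun t j => h t (Sum.inl j), Γ, ⟨fun t j => hB.hA t _, fun t j => hB.sA t (Sum.inl j),
      fun t j l => hB.cmp t _ _, ?_⟩, fun j => n (Sum.inr j), fun t j => a t (Sum.inr j),
    fun t j => h t (Sum.inr j), fun t j => heq t (Sum.inl j), ⟨fun t j => hB.hA t _,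
      fun t j => heq t (Sum.inr j), ?_⟩, hG, hR⟩
  · intro t κ _ _ φ j
    obtain ⟨v, hv1, hv2⟩ := hB.ln t κ φ (Sum.inl j)
    exact ⟨v, hv1, fun l hl => hv2 _ fun h => hl (Sum.inl_injective h)⟩
  · intro t κ _ _ φ ξ η
    obtain ⟨v, hv⟩ := hB.W_surj φ (Sum.elim ξ η)
    refine ⟨v, fun j => hv (Sum.inl j), fun l => ?_⟩
    have h1 := hv (Sum.inr l)
    unfold BD.W at h1
    have h2 : φ ⟨1, hB.sA t (Sum.inr l)⟩ = 1 := map_one φ
    rw [h2, one_mul] at h1
    exact h1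

/-- The multiplicative case. -/
theorem bj_mul [Fintype ι] [Fintype ι2] [Fact p.Prime] [CharP k p]
    (h : GM p k (Sum.elim f f2) g) (hf : ∀ i, f i ∈ Submonoid.closure (Set.range g)) :
    ∃ (T0 I0 : Type) (_ : Finite T0) (_ : Fintype I0) (M0 : LM (⊥ : Subalgebra k L) ⊤ T0 I0)
      (n e : ι → I0 → ℤ) (a h s u : T0 → ι → L) (ν : ι → I0 → ℤ) (Γ : G → I0 → ℤ)
      (hB : BD M0 n e h s) (n2 : ι2 → I0 → ℤ) (a2 h2 : T0 → ι2 → L),
      (∀ t j, f j = a t j ^ p + (∏ i, M0.x t i ^ n j i) * h t j) ∧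
      (∀ t j, u t j ≠ 0) ∧ (∀ t j, u t j ∈ M0.A t) ∧ (∀ t j, (u t j)⁻¹ ∈ M0.A t) ∧
      (∀ t j, f j = u t j * ∏ i, M0.x t i ^ ν j i) ∧ (∀ t j, s t j = (u t j)⁻¹) ∧
      (∀ j i, e j i = n j i - ν j i) ∧ (∀ t j i, 0 ≤ e j i ∨ (M0.x t i)⁻¹ ∈ M0.A t) ∧
      BJ p hB f2 n2 a2 h2 ∧ Fn M0 g Γ ∧ Frc M0 := by
  have hp : p.Prime := Fact.out
  obtain ⟨T, I, hT, hI, M, n0, a0, h0, Γ, hN, hG, hR⟩ := h
  let n : ι → I → ℤ := fun j => n0 (Sum.inl j)
  let a : T → ι → L := fun t j => a0 t (Sum.inl j)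
  let h : T → ι → L := fun t j => h0 t (Sum.inl j)
  choose ν hν using fun i => isFn_of_closure hG (hf i)
  choose u u0 uA uA' hu using hν
  obtain ⟨T', I', iT, iI, M', π, Θ, hOv, hC⟩ := wd_ovp k L ⊥ ⊤ T I (Option ι) M
    (fun o => o.elim 0 (fun i l => n i l - ν i l))
  have hM' : Frc M' := hR.ov hOv
  have hh0 : ∀ t' j, h0 (π t') j ∈ M'.A t' := fun t' j => hOv.le t' (hN.hA (π t') j)
  have hh : ∀ t' j, h (π t') j ∈ M'.A t' := fun t' j => hh0 t' (Sum.inl j)
  let n0' : ι ⊕ ι2 → I' → ℤ := fun j i' => ∑ i, Θ i' i * n0 j i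
  let n' : ι → I' → ℤ := fun j i' => ∑ i, Θ i' i * n j i
  let ν' : ι → I' → ℤ := fun j i' => ∑ i, Θ i' i * ν j i
  let e' : ι → I' → ℤ := fun j i' => ∑ i, Θ i' i * (n j i - ν j i)
  have he' : ∀ j i', e' j i' = n' j i' - ν' j i' := by
    intro j i'
    change ∑ i, Θ i' i * (n j i - ν j i) = ∑ i, Θ i' i * n j i - ∑ i, Θ i' i * ν j i
    rw [← Finset.sum_sub_distrib]
    exact Finset.sum_congr rfl fun i _ => mul_sub _ _ _
  have hform : ∀ t' (κ : Type u) [Field κ] [Algebra k κ] (φ' : M'.A t' →ₐ[k] κ) (j : ι ⊕ ι2),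
      ∃ v' : LT φ' (M'.x t'), om v' (n0' j) (hh0 t' j) ≠ 0 ∧
        ∀ l, l ≠ j → om v' (n0' l) (hh0 t' l) = 0 := by
    intro t' κ _ _ φ' j
    obtain ⟨v, hv1, hv2⟩ := hN.ln (π t') κ (φ'.comp (Subalgebra.inclusion (hOv.le t'))) j
    obtain ⟨v', hw1, hw2⟩ := hOv.lt t' κ φ' v
    have h1 : ∀ l, om v' (n0' l) (hh0 t' l) = om v (n0 l) (hN.hA (π t') l) := fun l =>
      om_ov hOv hw1 hw2 (n0 l) _ (fun _ => rfl) (hN.hA (π t') l)
    refine ⟨v', ?_, ?_⟩
    · rw [h1]; exact hv1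
    · intro l hl
      rw [h1]; exact hv2 l hl
  have heq0 : ∀ t' j, Sum.elim f f2 j =
      a0 (π t') j ^ p + (∏ i, M'.x t' i ^ n0' j i) * h0 (π t') j := by
    intro t' j
    rw [hN.eq (π t') j, prod_ov hOv]
  have heq : ∀ t' j, f j = a (π t') j ^ p + (∏ i, M'.x t' i ^ n' j i) * h (π t') j :=
    fun t' j => heq0 t' (Sum.inl j)
  have heq' : ∀ t' j, f j = u j (π t') * ∏ i, M'.x t' i ^ ν' j i := by
    intro t' j
    rw [hu j (π t'), prod_ov hOv]
  have hUA : ∀ t' j, u j (π t') ∈ M'.A t' := fun t' j => hOv.le t' (uA j (π t'))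
  have hUA' : ∀ t' j, (u j (π t'))⁻¹ ∈ M'.A t' := fun t' j => hOv.le t' (uA' j (π t'))
  have hn' : ∀ j, n' j = ν' j + e' j := fun j => funext fun i => by
    rw [Pi.add_apply, he']; ring
  have he0 : ∀ t' j i, 0 ≤ e' j i ∨ (M'.x t' i)⁻¹ ∈ M'.A t' := by
    intro t' j
    have := M'.sm t'
    refine E_nonneg p (fun z hz => root_mem' wd_norm hM' hp.pos t' hz) (M'.snc t') (M'.xA t')
      (M'.x0 t') (ν' j) (e' j) ⟨_, hUA t' j⟩ ⟨_, hh t' j⟩ (a (π t') j) ?_ ?_ ?_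
    · rw [← hn']
      change mo (M'.x t') (ν' j) * u j (π t') = a (π t') j ^ p +
        mo (M'.x t') (n' j) * h (π t') j
      rw [mul_comm]
      exact (heq' t' j).symm.trans (heq t' j)
    · intro κ _ _ φ'
      obtain ⟨v', hv, -⟩ := hform t' κ φ' (Sum.inl j)
      rw [← hn']
      exact ⟨v', hv⟩
    · have h1 := hC none (some j) t'
      simp only [Option.elim_none, Option.elim_some, Pi.zero_apply, mul_zero,
        Finset.sum_const_zero] at h1
      exact h1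
  have hune : ∀ t' (κ : Type u) [Field κ] [Algebra k κ] (φ' : M'.A t' →ₐ[k] κ) (j : ι),
      φ' ⟨_, hUA' t' j⟩ ≠ 0 := by
    intro t' κ _ _ φ' j h0
    have h1 : φ' ⟨_, hUA' t' j⟩ * φ' ⟨_, hUA t' j⟩ = 1 := by
      rw [← map_mul, ← map_one φ']
      congr 1
      exact Subtype.ext (inv_mul_cancel₀ (u0 j (π t')))
    rw [h0, zero_mul] at h1
    exact zero_ne_one h1
  refine ⟨T', I', iT, iI, M', n', e', fun t' j => a (π t') j, fun t' j => h (π t') j,
    fun t' j => (u j (π t'))⁻¹, fun t' j => u j (π t'), ν', _,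
    ⟨hh, hUA', fun t' j l => hC (some j) (some l) t', ?_⟩, fun j => n0' (Sum.inr j),
    fun t' j => a0 (π t') (Sum.inr j), fun t' j => h0 (π t') (Sum.inr j), heq,
    fun t' j => u0 j (π t'), hUA,
    hUA', heq', fun _ _ => rfl, he', he0, ⟨fun t' j => hh0 t' (Sum.inr j),
      fun t' j => heq0 t' (Sum.inr j), ?_⟩, hG.ov hOv, hM'⟩
  · intro t' κ _ _ φ' j
    obtain ⟨v', hv1, hv2⟩ := hform t' κ φ' (Sum.inl j)
    exact ⟨v', mul_ne_zero (hune t' κ φ' j) hv1,
      fun l hl => mul_eq_zero_of_right _ (hv2 (Sum.inl l) fun h => hl (Sum.inl_injective h))⟩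
  · intro t' κ _ _ φ' ξ η
    obtain ⟨v, hv⟩ := exists_lt_values (fun j v => om v (n0' j) (hh0 t' j))
      (fun j c d v w => om_lc' (n0' j) (hh0 t' j) c d v w) (fun j => hform t' κ φ' j)
      (Sum.elim (fun j => (φ' ⟨_, hUA' t' j⟩)⁻¹ * ξ j) η)
    refine ⟨v, fun j => ?_, fun l => hv (Sum.inr l)⟩
    have h1 := hv (Sum.inl j)
    change om v (n' j) (hh t' j) = (φ' ⟨_, hUA' t' j⟩)⁻¹ * ξ j at h1
    change φ' ⟨_, hUA' t' j⟩ * om v (n' j) (hh t' j) = ξ j
    rw [h1, ← mul_assoc, mul_inv_cancel₀ (hune t' κ φ' j), one_mul]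

end bj

section change

variable {k L : Type u} [Field k] [Field L] [Algebra k L] {T0 I0 : Type} [Finite T0] [Fintype I0]
  {ι ι2 : Type} [Fintype ι] {C : Type w} [Field C] (c : C →+* k)
  {M0 : LM (⊥ : Subalgebra k L) ⊤ T0 I0} {n e : ι → I0 → ℤ} {h s : T0 → ι → L}

/-- The identical model. -/
lemma ovr_refl (M0 : LM (⊥ : Subalgebra k L) ⊤ T0 I0) [DecidableEq I0] :
    Ovr M0 M0 id (fun i j => if i = j then 1 else 0) := by
  refine ⟨fun t a ha => ha, ?_, ?_⟩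
  · intro t i0
    change M0.x t i0 = _
    rw [Finset.prod_eq_single i0]
    · rw [if_pos rfl, zpow_one]
    · intro b _ hb
      rw [if_neg hb, zpow_zero]
    · intro h
      exact absurd (Finset.mem_univ _) h
  · intro i j
    split_ifs <;> norm_num

/-- **Change of the functions.** The functions `F (lam i)`, where the `lam i` have disjoint
supports. -/
theorem nfj_change {p : ℕ} {hB : BD M0 n e h s} {F : (ι → C) → L}
    (hF : HNF c p hB F) (hR : Frc M0) (hF0 : ∃ w : L, w ^ p = F 0) {f2 : ι2 → L}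
    {n2 : ι2 → I0 → ℤ} {a2 h2 : T0 → ι2 → L} (hJ : BJ p hB f2 n2 a2 h2) {ι' : Type}
    (lam : ι' → ι → C) (hne : ∀ i, lam i ≠ 0)
    (hd : ∀ i i', i ≠ i' → ∀ j, lam i j = 0 ∨ lam i' j = 0) :
    ∃ (n' : ι' ⊕ ι2 → I0 → ℤ) (a' h' : T0 → ι' ⊕ ι2 → L),
      NFJ p M0 (Sum.elim (fun i => F (lam i)) f2) n' a' h' := by
  classical
  have hid := ovr_refl M0
  have h1 : ∀ i, ∃ (μ : T0 → ι → C) (j0 : T0 → ι) (e' : I0 → ℤ),
      Nrm.{u} (fun t i => (M0.x t i)⁻¹ ∈ M0.A t) e (⊥ : Submodule C (ι → C)) (lam i) μ j0 e' :=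
    fun i => exists_nrm.{u} (fun t i => (M0.x t i)⁻¹ ∈ M0.A t) e hB.cmp ⊥ (lam i) (by
      rw [Submodule.mem_bot]
      exact hne i)
  choose μ j0 e' hNrm using h1
  have hμ : ∀ i t, μ i t = 0 := fun i t => (Submodule.mem_bot C).1 ((hNrm i).mem t)
  have h2 := fun i => hF L T0 I0 M0 id _ hid hR ⊥ (fun ν hν => by
    rw [(Submodule.mem_bot C).1 hν]
    exact hF0) (lam i) (by
      rw [Submodule.mem_bot]
      exact hne i) (μ i) (j0 i) (e' i) (hNrm i)
  choose n' a' h' hA' heq hom using h2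
  have hcp : ∀ t (κ : Type u) [Field κ] [Algebra k κ] (φ : M0.A t →ₐ[k] κ)
      (v : LT φ (M0.x t)), Cp v v (fun i j : I0 => if i = j then (1 : ℤ) else 0) := by
    intro t κ _ _ φ v
    refine ⟨fun a ha ha' => rfl, fun a ha ha' => rfl, ?_⟩
    intro i0
    rw [Finset.sum_eq_single i0]
    · rw [if_pos rfl]; push_cast; rw [one_mul]
    · intro b _ hb
      rw [if_neg hb]; push_cast; rw [zero_mul]
    · intro h
      exact absurd (Finset.mem_univ _) h
  have hj0 : ∀ i t, lam i (j0 i t) ≠ 0 := by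
    intro i t
    have h3 := (hNrm i).ne t
    rwa [hμ, sub_zero] at h3
  -- the values of the forms
  have hval : ∀ t (κ : Type u) [Field κ] [Algebra k κ] (φ : M0.A t →ₐ[k] κ) (i : ι'),
      ∃ u : κ, u ≠ 0 ∧ ∀ v : LT φ (M0.x t), (∀ l, l ≠ j0 i t → lam i l ≠ 0 → hB.W v l = 0) →
        om v (n' i) (hA' i t) = u * hB.W v (j0 i t) := by
    intro t κ _ _ φ i
    obtain ⟨u, hu, hu'⟩ := hom i t κ φ
    refine ⟨u * ((algebraMap k κ).comp c) (lam i (j0 i t)),
      mul_ne_zero hu ((_root_.map_ne_zero _).2 (hj0 i t)), fun v hv => ?_⟩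
    rw [hu' φ v v (hcp t κ φ v)]
    unfold pf
    rw [hμ, sub_zero, Finset.sum_eq_single (j0 i t)]
    · have h3 : EE e φ (M0.x t) (j0 i t) (j0 i t) = 1 := EE_self e φ _ _
      change u * (_ * EE e φ (M0.x t) (j0 i t) (j0 i t) * _) = _
      rw [h3, mul_one]
      ring
    · intro l _ hl
      by_cases h3 : lam i l = 0
      · rw [h3, map_zero]; ring
      · rw [hv l hl h3, mul_zero]
    · intro h
      exact absurd (Finset.mem_univ _) h
  refine ⟨Sum.elim n' n2, fun t => Sum.elim (fun i => a' i t) (a2 t),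
    fun t => Sum.elim (fun i => h' i t) (h2 t), ?_, ?_, ?_⟩
  · rintro t (i | l)
    · exact hA' i t
    · exact hJ.hA t l
  · rintro t (i | l)
    · exact heq i t
    · exact hJ.eq t l
  · intro t κ _ _ φ o
    rcases o with i | l
    · obtain ⟨v, hv1, hv2⟩ := hJ.sj t κ φ (fun j => if j = j0 i t then 1 else 0) (fun _ => 0)
      refine ⟨v, ?_, ?_⟩
      · obtain ⟨u, hu, hu'⟩ := hval t κ φ i
        change om v (n' i) (hA' i t) ≠ 0
        rw [hu' v fun l hl _ => by rw [hv1, if_neg hl], hv1, if_pos rfl, mul_one]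
        exact hu
      · rintro (i' | l') hne'
        · have hii : i' ≠ i := fun h => hne' (by rw [h])
          obtain ⟨u, hu, hu'⟩ := hval t κ φ i'
          change om v (n' i') (hA' i' t) = 0
          have h3 : ∀ l, lam i' l ≠ 0 → hB.W v l = 0 := by
            intro l hl
            rw [hv1, if_neg]
            rintro rfl
            rcases hd i' i hii (j0 i t) with h4 | h4
            · exact hl h4
            · exact hj0 i t h4
          rw [hu' v fun l _ hl => h3 l hl, h3 _ (hj0 i' t), mul_zero]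
        · exact hv2 l'
    · obtain ⟨v, hv1, hv2⟩ := hJ.sj t κ φ (fun j => 0) (fun l' => if l' = l then 1 else 0)
      refine ⟨v, ?_, ?_⟩
      · change om v (n2 l) (hJ.hA t l) ≠ 0
        rw [hv2, if_pos rfl]
        exact one_ne_zero
      · rintro (i' | l') hne'
        · obtain ⟨u, hu, hu'⟩ := hval t κ φ i'
          change om v (n' i') (hA' i' t) = 0
          rw [hu' v fun l _ _ => hv1 l, hv1, mul_zero]
        · change om v (n2 l') (hJ.hA t l') = 0
          rw [hv2, if_neg]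
          rintro rfl
          exact hne' rfl

end change

section ops

variable (p : ℕ) [Fact p.Prime] {k L : Type u} [Field k] [PerfectField k] [CharP k p] [Field L]
  [Algebra k L] {ι ι2 ι' G : Type} [Fintype ι] [Fintype ι2] {f : ι → L} {f2 : ι2 → L} {g : G → L}

/-- Sums. -/
theorem gm_add (h : GM p k (Sum.elim f f2) g) (lam : ι' → ι → k) (hne : ∀ i, lam i ≠ 0)
    (hd : ∀ i i', i ≠ i' → ∀ j, lam i j = 0 ∨ lam i' j = 0) :
    GM p k (Sum.elim (fun i => ∑ j, algebraMap k L (lam i j) * f j) f2) g := by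
  have hp : p.Prime := Fact.out
  obtain ⟨T0, I0, hT0, hI0, M0, n, a, h, Γ, hB, n2, a2, h2, heq, hJ, hG, hR⟩ := bj_add h
  obtain ⟨n', a', h', hN⟩ := nfj_change (RingHom.id k) (hnf_add p hB f a heq) hR
    ⟨0, by
      rw [zero_pow hp.ne_zero]
      symm
      refine Finset.sum_eq_zero fun j _ => ?_
      rw [Pi.zero_apply, map_zero, zero_mul]⟩ hJ lam hne hd
  exact ⟨T0, I0, hT0, hI0, M0, n', a', h', Γ, hN, hG, hR⟩

/-- Products. -/
theorem gm_mul (h : GM p k (Sum.elim f f2) g) (hf : ∀ i, f i ∈ Submonoid.closure (Set.range g))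
    (lam : ι' → ι → ZMod p) (hne : ∀ i, lam i ≠ 0)
    (hd : ∀ i i', i ≠ i' → ∀ j, lam i j = 0 ∨ lam i' j = 0) :
    GM p k (Sum.elim (fun i => pw p f (lam i)) f2) g := by
  have hp : p.Prime := Fact.out
  obtain ⟨T0, I0, hT0, hI0, M0, n, e, a, h, s, u, ν, Γ, hB, n2, a2, h2, heq, hu0, huA, huA', hu,
    hs, he, he0, hJ, hG, hR⟩ := bj_mul h hf
  obtain ⟨n', a', h', hN⟩ := nfj_change (ZMod.castHom (dvd_refl p) k)
    (hnf_mul wd_norm p hB f a u ν heq hu0 huA huA' hu hs he he0) hR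
    ⟨1, by
      unfold pw
      rw [one_pow]
      symm
      refine Finset.prod_eq_one fun j _ => ?_
      rw [Pi.zero_apply, ZMod.val_zero, pow_zero]⟩ hJ lam hne hd
  exact ⟨T0, I0, hT0, hI0, M0, n', a', h', Γ, hN, hG, hR⟩

/-- Adding `p`-th powers. -/
theorem gm_addp {ι : Type} {f : ι → L} (h : GM p k f g) (b : ι → L) :
    GM p k (fun j => b j ^ p + f j) g := by
  have hcL : CharP L p := charP_of_injective_algebraMap (algebraMap k L).injective p
  obtain ⟨T, I, hT, hI, M, n, a, h, Γ, hN, hG, hR⟩ := h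
  refine ⟨T, I, hT, hI, M, n, fun t j => b j + a t j, h, Γ, ⟨hN.hA, fun t j => ?_, hN.ln⟩, hG, hR⟩
  rw [add_pow_char, add_assoc]
  exact congrArg _ (hN.eq t j)


variable {K : Type u} [Field K] [Algebra k K] [Algebra L K] [IsScalarTower k L K]

/-- The functions on an extension. -/
theorem gm_of_stg {T0 I0 : Type} [Finite T0] [Fintype I0] {C : Type w} [Field C] (c : C →+* k)
    {M0 : LM (⊥ : Subalgebra k L) ⊤ T0 I0} {n e : ι → I0 → ℤ} {h s : T0 → ι → L}
    {hB : BD M0 n e h s} {n2 : ι2 → I0 → ℤ} {a2 h2 : T0 → ι2 → L} (hJ : BJ p hB f2 n2 a2 h2)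
    {F : (ι → C) → L} (hGT : GT c p hB F g K) :
    GM p k (fun j => algebraMap L K (f2 j)) (fun b => algebraMap L K (g b)) := by
  classical
  obtain ⟨T, I, hT, hI, M, π, Θ, Λ, Γ, hS, hw, hFn, hFr⟩ := hGT
  have hle := hS.ov.le
  refine ⟨T, I, hT, hI, M, fun j i => ∑ i0, Θ i i0 * n2 j i0,
    fun t j => algebraMap L K (a2 (π t) j), fun t j => algebraMap L K (h2 (π t) j), Γ,
    ⟨fun t j => hle t _ (hJ.hA _ _), fun t j => ?_, ?_⟩, hFn, hFr⟩
  · have h1 := mo_pull hS.ov t (n2 j)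
    change algebraMap L K (∏ i, M0.x (π t) i ^ n2 j i) = ∏ i, M.x t i ^ (∑ i0, Θ i i0 * n2 j i0) at h1
    rw [← h1, ← map_pow, ← map_mul, ← map_add]
    exact congrArg _ (hJ.eq (π t) j)
  · intro t κ _ _ φ j
    obtain ⟨v0, hv1, hv2⟩ := hJ.sj (π t) κ (φ.comp (ci (hle t))) (fun _ => 0)
      (fun l => if l = j then 1 else 0)
    obtain ⟨v, hv⟩ := hS.lf t κ φ (φ.comp (ci (hle t))) (fun a ha => rfl) v0 (by
      intro lam _ j _ _
      unfold pf
      refine Finset.sum_eq_zero fun l _ => ?_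
      rw [hv1, mul_zero])
    have h1 : ∀ l, om v (fun i => ∑ i0, Θ i i0 * n2 l i0) (hle t _ (hJ.hA (π t) l)) =
        if l = j then 1 else 0 := by
      intro l
      rw [← hv2 l]
      exact hv.om (n2 l) (hJ.hA (π t) l) _
    refine ⟨v, ?_, fun l hl => ?_⟩
    · rw [h1, if_pos rfl]
      exact one_ne_zero
    · rw [h1, if_neg hl]

/-- Roots of sums. -/
theorem root_add (h : GM p k (Sum.elim f f2) g) (r : ℕ) (w : Fin r → K) (lam : Fin r → ι → k)
    (hw : ∀ j, w j ^ p = algebraMap L K (∑ l, algebraMap k L (lam j l) * f l))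
    (hgen : IntermediateField.adjoin L (Set.range w) = ⊤) :
    GM p k (fun j => algebraMap L K (f2 j)) (fun b => algebraMap L K (g b)) := by
  have hp : p.Prime := Fact.out
  obtain ⟨T0, I0, hT0, hI0, M0, n, a, h, Γ, hB, n2, a2, h2, heq, hJ, hG, hR⟩ := bj_add h
  have h0 : GT (RingHom.id k) p hB (fun lam : ι → k => ∑ j, algebraMap k L (lam j) * f j) g L := by
    refine gt_init _ p hB _ ⟨0, ?_⟩ g Γ hG hR
    rw [zero_pow hp.ne_zero]
    symm
    refine Finset.sum_eq_zero fun j _ => ?_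
    rw [Pi.zero_apply, map_zero, zero_mul]
  exact gm_of_stg p _ hJ
    (gt_tower wq_bun wq_ppr wq_pcut (hnf_add p hB f a heq) (hpow_add p f) r L K h0 w lam hw hgen)

/-- Roots of products. -/
theorem root_mul (h : GM p k (Sum.elim f f2) g) (hf : ∀ i, f i ∈ Submonoid.closure (Set.range g))
    (hf0 : ∀ j, f j ≠ 0) (r : ℕ) (w : Fin r → K) (lam : Fin r → ι → ZMod p)
    (hw : ∀ j, w j ^ p = algebraMap L K (pw p f (lam j)))
    (hgen : IntermediateField.adjoin L (Set.range w) = ⊤) :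
    GM p k (fun j => algebraMap L K (f2 j)) (fun b => algebraMap L K (g b)) := by
  have hp : p.Prime := Fact.out
  obtain ⟨T0, I0, hT0, hI0, M0, n, e, a, h, s, u, ν, Γ, hB, n2, a2, h2, heq, hu0, huA, huA', hu,
    hs, he, he0, hJ, hG, hR⟩ := bj_mul h hf
  have h0 : GT (ZMod.castHom (dvd_refl p) k) p hB (pw p f) g L := by
    refine gt_init _ p hB _ ⟨1, ?_⟩ g Γ hG hR
    unfold pw
    rw [one_pow]
    symm
    refine Finset.prod_eq_one fun j _ => ?_
    rw [Pi.zero_apply, ZMod.val_zero, pow_zero]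
  exact gm_of_stg p _ hJ
    (gt_tower wq_bun wq_ppr wq_pcut (hnf_mul wd_norm p hB f a u ν heq hu0 huA huA' hu hs he he0)
      (hpow_mul p hf0) r L K h0 w lam hw hgen)

end ops

end Pool.Agent.KS6_21.P1
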