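import Pool.Graph.R_seed8.TH188.WQ.Base

/-!
The local equation of the divisor `Z ^ p = f` on the charts of a line bundle, and the normal form
of `f` with this divisor added to the boundary.
-/

set_option autoImplicit false
set_option linter.unusedVariables false
set_option linter.unusedSectionVars false

universe u

open Polynomial Pool.Agent.W558 Pool.Agent.W177.WD

namespace Pool.Agent.KS6_21.P1

/-- The telescoping identity. -/
lemma tele {R : Type*} [CommRing R] (f : R) (m : ℕ) :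
    (1 - f) * (∑ j ∈ Finset.range m, ((j + 1 : ℕ) : R) * f ^ j) -
      f * ∑ j ∈ Finset.range m, f ^ j = 1 - ((m + 1 : ℕ) : R) * f ^ m := by
  induction m with
  | zero => simp
  | succ m ih =>
    rw [Finset.sum_range_succ, Finset.sum_range_succ, mul_add, mul_add, pow_succ]
    have e : (1 - f) * ∑ j ∈ Finset.range m, ((j + 1 : ℕ) : R) * f ^ j =
        1 - ((m + 1 : ℕ) : R) * f ^ m + f * ∑ j ∈ Finset.range m, f ^ j := by
      rw [← ih]; ring
    rw [e]
    push_cast
    ring

section tv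

variable {k A κ : Type u} [Field k] [CommRing A] [Algebra k A] [Field κ] [Algebra k κ]
    {φ : A →ₐ[k] κ}

lemma tv_pow (D : TV φ) (a : A) (j : ℕ) : D.D (a ^ j) = (j : κ) * φ a ^ (j - 1) * D.D a := by
  induction j with
  | zero => simp [D.D_one]
  | succ j ih =>
    rw [pow_succ, D.leib, ih, map_pow]
    rcases j with _ | j
    · simp
    · simp only [Nat.add_sub_cancel]
      push_cast
      rw [pow_succ]
      ring

lemma tv_sum (D : TV φ) {J : Type*} (s : Finset J) (a : J → A) :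
    D.D (∑ j ∈ s, a j) = ∑ j ∈ s, D.D (a j) := map_sum D.D a s

end tv

section chart

variable {k N : Type u} [Field k] [Field N] [Algebra k N] {T I : Type} [Fintype I]

/-- The monomials. -/
noncomputable abbrev mn (x : I → N) (m : I → ℤ) : N := ∏ i, x i ^ m i

lemma mn_ne {x : I → N} (hx : ∀ i, x i ≠ 0) (m : I → ℤ) : mn x m ≠ 0 :=
  Finset.prod_ne_zero_iff.2 fun i _ => zpow_ne_zero _ (hx i)

lemma mn_add {x : I → N} (hx : ∀ i, x i ≠ 0) (m m' : I → ℤ) :
    mn x (fun i => m i + m' i) = mn x m * mn x m' := by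
  unfold mn
  rw [← Finset.prod_mul_distrib]
  exact Finset.prod_congr rfl fun i _ => zpow_add₀ (hx i) _ _

lemma mn_sub {x : I → N} (hx : ∀ i, x i ≠ 0) (m m' : I → ℤ) :
    mn x (fun i => m i - m' i) = mn x m * (mn x m')⁻¹ := by
  unfold mn
  rw [← Finset.prod_inv_distrib, ← Finset.prod_mul_distrib]
  exact Finset.prod_congr rfl fun i _ => by rw [zpow_sub₀ (hx i), div_eq_mul_inv]

lemma mn_neg (x : I → N) (m : I → ℤ) : mn x (fun i => -m i) = (mn x m)⁻¹ := by
  unfold mn
  rw [← Finset.prod_inv_distrib]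
  exact Finset.prod_congr rfl fun i _ => zpow_neg _ _

lemma mn_mul (x : I → N) (p : ℕ) (m : I → ℤ) : mn x (fun i => (p : ℤ) * m i) = mn x m ^ p := by
  unfold mn
  rw [← Finset.prod_pow]
  refine Finset.prod_congr rfl fun i _ => ?_
  change x i ^ ((p : ℤ) * m i) = _
  rw [mul_comm, zpow_mul, zpow_natCast]

lemma mn_mem {A : Subalgebra k N} {x : I → N} (hx : ∀ i, x i ∈ A) {m : I → ℤ}
    (h : ∀ i, 0 ≤ m i ∨ (x i)⁻¹ ∈ A) : mn x m ∈ A :=
  A.prod_mem fun i _ => zpow_mem_of (hx i) (h i)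

lemma mn_inv_mem {A : Subalgebra k N} {x : I → N} (hx : ∀ i, x i ∈ A) {m : I → ℤ}
    (h : ∀ i, m i ≤ 0 ∨ (x i)⁻¹ ∈ A) : (mn x m)⁻¹ ∈ A := by
  rw [← mn_neg]
  exact mn_mem hx fun i => by
    rcases h i with h | h
    · left; omega
    · exact Or.inr h

/-- The local equation of the divisor of `F = Z ^ p - f` and the normal form of `f`. -/
lemma chart3 (p : ℕ) [Fact p.Prime] [CharP k p] (M : LM (⊥ : Subalgebra k N) ⊤ T I) (Z φ : N)
    (Q : Subalgebra k N) (y h : T → N) (c μ : I → ℤ) (hPS : PS p M (Z ^ p - φ) Q y h c μ)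
    (hF : Fin2 M y c) (t : T) :
    ∃ f w h' a' : N, f ∈ M.A t ∧ (w ≠ 0 ∧ w ∈ M.A t ∧ w⁻¹ ∈ M.A t) ∧
      Z ^ p - φ = w * mn (M.x t) (fun i => p * μ i + min (c i) 0) * f ∧
      φ = a' ^ p + mn (M.x t) (fun i => c i + p * μ i) * f * h' ∧ h' ∈ M.A t ∧
      ∀ (κ : Type u) [Field κ] [Algebra k κ] (ψ : M.A t →ₐ[k] κ) (hf : f ∈ M.A t)
        (hh : h' ∈ M.A t), (ψ ⟨f, hf⟩ = 0 → ψ ⟨h', hh⟩ ≠ 0) ∧
        ∀ v : LT ψ (ox (y t) (M.x t)),
          ψ ⟨f, hf⟩ * (v.D.D ⟨h', hh⟩ + ψ ⟨h', hh⟩ * ∑ i, (c i : κ) * v.e (some i)) +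
            ψ ⟨h', hh⟩ * v.D.D ⟨f, hf⟩ = v.D.D ⟨h t, hPS.hA t⟩ +
            ψ ⟨h t, hPS.hA t⟩ * ∑ i, (c i : κ) * v.e (some i) := by
  have hp : p.Prime := Fact.out
  have hcN : CharP N p := charP_of_injective_algebraMap (algebraMap k N).injective p
  have hx0 := M.x0 t
  have hxA := M.xA t
  have hy0 := hPS.y0 t
  have hmc : mn (M.x t) c ≠ 0 := mn_ne hx0 c
  have hmμ : mn (M.x t) μ ≠ 0 := mn_ne hx0 μ
  have e1 : mn (M.x t) (fun i => (p : ℤ) * μ i) = mn (M.x t) μ ^ p := mn_mul _ _ _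
  have e2 : mn (M.x t) (fun i => c i + p * μ i) = mn (M.x t) c * mn (M.x t) μ ^ p := by
    rw [mn_add hx0, e1]
  have e3 : mn (M.x t) (fun i => -c i) = (mn (M.x t) c)⁻¹ := mn_neg _ _
  have e4 : mn (M.x t) (fun i => p * μ i + min (c i) 0) =
      mn (M.x t) μ ^ p * mn (M.x t) (fun i => min (c i) 0) := by
    rw [mn_add hx0, e1]
  have hF0 : Z ^ p - φ = mn (M.x t) μ ^ p * (y t ^ p - mn (M.x t) c * h t) := by
    rw [← e1]
    exact hPS.eq t
  rcases hF t with h1 | ⟨h1, h2⟩
  · -- first case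
    have hXA : (mn (M.x t) c)⁻¹ * y t ^ p ∈ M.A t :=
      (M.A t).mul_mem (mn_inv_mem hxA h1) ((M.A t).pow_mem (hPS.yA t) p)
    refine ⟨(mn (M.x t) c)⁻¹ * y t ^ p - h t, mn (M.x t) (fun i => c i - min (c i) 0), -1, Z,
      (M.A t).sub_mem hXA (hPS.hA t), ⟨mn_ne hx0 _, ?_, ?_⟩, ?_, ?_,
      (M.A t).neg_mem (M.A t).one_mem, ?_⟩
    · refine mn_mem hxA fun i => ?_
      left; omega
    · refine mn_inv_mem hxA fun i => ?_
      rcases h1 i with h | h
      · left; omega
      · exact Or.inr h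
    · rw [hF0, e4, mn_sub hx0]
      have := mn_ne hx0 (fun i => min (c i) 0)
      field_simp
    · rw [e2]
      have h3 : φ = Z ^ p - (Z ^ p - φ) := by ring
      rw [h3, hF0]
      field_simp
      ring
    · intro κ _ _ ψ hf hh
      have hm1 : (⟨-1, hh⟩ : M.A t) = -1 := rfl
      refine ⟨fun _ => ?_, fun v => ?_⟩
      · rw [hm1, map_neg, map_one]
        exact neg_ne_zero.2 one_ne_zero
      · have hLx : ∀ i, LG v.D (M.x t i) (v.e (some i)) := fun i =>
          ⟨M.xA t i, v.hx (some i) (M.xA t i)⟩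
        have hLy : LG v.D (y t) (v.e none) := ⟨hPS.yA t, v.hx none (hPS.yA t)⟩
        have hX : LG v.D (mn (M.x t) (fun i => -c i) * y t ^ p)
            (∑ i, ((-c i : ℤ) : κ) * v.e (some i) + (p : κ) * v.e none) := by
          refine LG.mul (LG.prod _ _ _ fun i _ => (hLx i).zpow (hx0 i) _ ?_) (hLy.pow p)
          rcases h1 i with h | h
          · left
            change 0 ≤ -c i
            omega
          · exact Or.inr h
        rw [cast_zero (k := k) p κ, zero_mul, add_zero, e3] at hX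
        have h5 : (⟨(mn (M.x t) c)⁻¹ * y t ^ p - h t, hf⟩ : M.A t) =
          ⟨_, hXA⟩ - ⟨h t, hPS.hA t⟩ := rfl
        have h6 := hX.eq hXA
        have h7 : v.D.D (-1 : M.A t) = 0 := by rw [map_neg, v.D.D_one, neg_zero]
        rw [hm1, h7, h5, map_sub, map_sub, h6, map_neg, map_one]
        simp only [Int.cast_neg, neg_mul, Finset.sum_neg_distrib]
        ring
  · -- second case
    have hXA : mn (M.x t) c * (y t)⁻¹ ^ p ∈ M.A t :=
      (M.A t).mul_mem (mn_mem hxA h1) ((M.A t).pow_mem h2 p)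
    let X : M.A t := ⟨_, hXA⟩
    let H : M.A t := ⟨h t, hPS.hA t⟩
    let f : M.A t := 1 - X * H
    let σ : M.A t := ∑ j ∈ Finset.range (p - 1), f ^ j
    have hXH : X * H = 1 - f := by simp [f]
    have hXHv : mn (M.x t) c * h t = (y t) ^ p * (1 - (f : N)) := by
      have h3 : (f : N) = 1 - mn (M.x t) c * (y t)⁻¹ ^ p * h t := rfl
      rw [h3, inv_pow]
      have := pow_ne_zero p hy0
      field_simp
      ring
    have hgeom : (1 - (f : N)) * (σ : N) = 1 - (f : N) ^ (p - 1) := by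
      have h3 : (σ : N) = ∑ j ∈ Finset.range (p - 1), (f : N) ^ j := by
        change (M.A t).val (∑ j ∈ Finset.range (p - 1), f ^ j) = _
        rw [map_sum]
        rfl
      rw [h3, mul_neg_geom_sum]
    have hpp : (f : N) ^ p = f * (f : N) ^ (p - 1) := by
      rw [← pow_succ', Nat.sub_add_cancel hp.one_le]
    refine ⟨f, y t ^ p * mn (M.x t) (fun i => - min (c i) 0), -(H * σ : M.A t),
      Z - f * (mn (M.x t) μ * y t), f.2, ⟨mul_ne_zero (pow_ne_zero _ hy0) (mn_ne hx0 _), ?_, ?_⟩,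
      ?_, ?_, (M.A t).neg_mem (H * σ).2, ?_⟩
    · refine (M.A t).mul_mem ((M.A t).pow_mem (hPS.yA t) p) (mn_mem hxA fun i => ?_)
      left; omega
    · rw [mul_inv, ← inv_pow]
      refine (M.A t).mul_mem ((M.A t).pow_mem h2 p) (mn_inv_mem hxA fun i => ?_)
      rcases h1 i with h | h
      · left; omega
      · exact Or.inr h
    · rw [hF0, e4, mn_neg, hXHv]
      have := mn_ne hx0 (fun i => min (c i) 0)
      field_simp
      ring
    · have h3 : φ = Z ^ p - (Z ^ p - φ) := by ring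
      conv_lhs => rw [h3, hF0, hXHv]
      rw [e2, sub_pow_char, mul_pow, mul_pow, hpp]
      have h4 : mn (M.x t) c * mn (M.x t) μ ^ p * (f : N) * -((H * σ : M.A t) : N) =
          -(mn (M.x t) μ ^ p * (f : N) * ((mn (M.x t) c * h t) * σ)) := by
        change mn (M.x t) c * mn (M.x t) μ ^ p * (f : N) * -(h t * (σ : N)) = _
        ring
      rw [h4, hXHv, mul_assoc (y t ^ p), hgeom]
      ring
    · intro κ _ _ ψ hf hh
      have hm1 : (⟨-((H * σ : M.A t) : N), hh⟩ : M.A t) = -(H * σ) := rfl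
      have hf1 : (⟨(f : N), hf⟩ : M.A t) = f := rfl
      have hσ : ψ σ = ∑ j ∈ Finset.range (p - 1), ψ f ^ j := by
        change ψ (∑ j ∈ Finset.range (p - 1), f ^ j) = _
        rw [map_sum]
        exact Finset.sum_congr rfl fun j _ => map_pow _ _ _
      have hXH' : ψ X * ψ H = 1 - ψ f := by rw [← map_mul, hXH, map_sub, map_one]
      refine ⟨fun h0 => ?_, fun v => ?_⟩
      · rw [hf1] at h0
        rw [hm1, map_neg, map_mul]
        rw [h0, sub_zero] at hXH'
        refine neg_ne_zero.2 (mul_ne_zero (right_ne_zero_of_mul_eq_one hXH') ?_)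
        rw [hσ, h0]
        have h3 : ∑ j ∈ Finset.range (p - 1), (0 : κ) ^ j = 1 := by
          rw [Finset.sum_eq_single 0]
          · rw [pow_zero]
          · intro b _ hb
            rw [zero_pow hb]
          · intro hb
            exfalso
            apply hb
            rw [Finset.mem_range]
            have := hp.two_le
            omega
        rw [h3]
        exact one_ne_zero
      · have hLx : ∀ i, LG v.D (M.x t i) (v.e (some i)) := fun i =>
          ⟨M.xA t i, v.hx (some i) (M.xA t i)⟩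
        have hLy : LG v.D (y t) (v.e none) := ⟨hPS.yA t, v.hx none (hPS.yA t)⟩
        have hX : LG v.D (mn (M.x t) c * (y t)⁻¹ ^ p)
            (∑ i, ((c i : ℤ) : κ) * v.e (some i) + (p : κ) * -v.e none) := by
          exact LG.mul (LG.prod _ _ _ fun i _ => (hLx i).zpow (hx0 i) _ (h1 i))
            ((hLy.inv hy0 h2).pow p)
        rw [cast_zero (k := k) p κ, zero_mul, add_zero] at hX
        have hDX : v.D.D X = ψ X * ∑ i, ((c i : ℤ) : κ) * v.e (some i) := hX.eq hXA
        set S : κ := ∑ i, ((c i : ℤ) : κ) * v.e (some i) with hS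
        set om : κ := v.D.D H + ψ H * S with hom
        have hDf : v.D.D f = -(ψ X * om) := by
          change v.D.D (1 - X * H) = _
          rw [map_sub, v.D.D_one, v.D.leib, hDX, hom]
          ring
        have hDσ : v.D.D σ = ∑ j ∈ Finset.range (p - 1), (j : κ) * ψ f ^ (j - 1) * v.D.D f := by
          change v.D.D (∑ j ∈ Finset.range (p - 1), f ^ j) = _
          rw [tv_sum]
          exact Finset.sum_congr rfl fun j _ => tv_pow _ _ _
        have hτ : ψ f * v.D.D σ + ψ σ * v.D.D f =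
            v.D.D f * ∑ j ∈ Finset.range (p - 1), ((j + 1 : ℕ) : κ) * ψ f ^ j := by
          rw [hDσ, hσ, Finset.mul_sum, Finset.sum_mul, ← Finset.sum_add_distrib, Finset.mul_sum]
          refine Finset.sum_congr rfl fun j _ => ?_
          rcases j with _ | j
          · simp
          · simp only [Nat.add_sub_cancel]
            push_cast
            rw [pow_succ]
            ring
        have htel := tele (ψ f) (p - 1)
        rw [Nat.sub_add_cancel hp.one_le, cast_zero (k := k) p κ, zero_mul, sub_zero, ← hσ] at htel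
        have hD1 : v.D.D (-(H * σ)) = -(ψ H * v.D.D σ + ψ σ * v.D.D H) := by
          rw [map_neg, v.D.leib]
        have hψ1 : ψ (-(H * σ)) = -(ψ H * ψ σ) := by rw [map_neg, map_mul]
        rw [hm1, hf1, hD1, hψ1]
        have h8 : ψ f * (-(ψ H * v.D.D σ + ψ σ * v.D.D H) + -(ψ H * ψ σ) * S) +
            -(ψ H * ψ σ) * v.D.D f = -(ψ f * ψ σ * om) -
              ψ H * (ψ f * v.D.D σ + ψ σ * v.D.D f) := by
          rw [hom]; ring
        rw [h8, hτ, hDf]
        have h9 : -(ψ f * ψ σ * om) - ψ H * (-(ψ X * om) *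
            ∑ j ∈ Finset.range (p - 1), ((j + 1 : ℕ) : κ) * ψ f ^ j) =
            om * ((ψ X * ψ H) * (∑ j ∈ Finset.range (p - 1), ((j + 1 : ℕ) : κ) * ψ f ^ j) -
              ψ f * ψ σ) := by ring
        rw [h9, hXH', htel, mul_one]

end chart

end Pool.Agent.KS6_21.P1
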