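import Pool.Agent.KS6_21.P1.Change
import Pool.Graph.R_pool_sql_team_seeded_63374d34.N102.TF.Mod
import Pool.Graph.R_pool_sql_team_seeded_63374d34.N762.FP.Itg

/-!
Pairs of a set of functions which are boundary functions and of a family of functions with a joint
normal form on suitable models.
-/

set_option autoImplicit false
set_option linter.unusedVariables false
set_option linter.unusedSectionVars false

universe u w

open Polynomial Pool.Agent.W558 Pool.Agent.TH188.WQ Pool.Agent.TH188.WP Pool.Agent.N98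
  Pool.Agent.N762.RC Pool.Agent.N762.RC2 Pool.Agent.N762.FP Pool.Agent.TH214.V TensorProduct

namespace Pool.Agent.KS6_21.P1

/-- The finite families of nonzero elements of `P` are boundary functions on models on which the
functions `f` have a joint normal form. -/
def Md (p : ℕ) (k : Type u) {K : Type u} [Field k] [Field K] [Algebra k K] (P : Set K) {ι : Type}
    (f : ι → K) : Prop :=
  ∀ (B : Type) [Finite B] (b : B → K), (∀ i, b i ∈ P) → (∀ i, b i ≠ 0) → GM p k f b

section basic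

variable {p : ℕ} {k K : Type u} [Field k] [Field K] [Algebra k K] {P : Set K} {ι ι' : Type}
  {f : ι → K}

lemma Md.mod (h : Md p k P f) : Mod k P := by
  intro B _ b hb hb0
  obtain ⟨T, I, hT, hI, M, n, a, h, Γ, hN, hG, hR⟩ := h B b hb hb0
  exact ⟨T, I, hT, hI, M, hR, fun i => IsB.br ⟨Γ i, fun t => hG i t⟩⟩

lemma Md.comp (h : Md p k P f) (e : ι' → ι) (he : Function.Injective e) : Md p k P (f ∘ e) :=
  fun B _ b hb hb0 => (h B b hb hb0).reindex e he id

lemma Md.comp' (h : Md p k P f) {f' : ι' → K} (e : ι' → ι) (he : Function.Injective e)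
    (hf : ∀ i, f' i = f (e i)) : Md p k P f' := by
  have : f' = f ∘ e := funext hf
  rw [this]
  exact h.comp e he

lemma Md.mono (h : Md p k P f) {Q : Set K} (hQ : Q ⊆ P) : Md p k Q f :=
  fun B _ b hb hb0 => h B b (fun i => hQ (hb i)) hb0

/-- Change of the boundary functions. -/
lemma gm_sub {G G' : Type} {g : G → K} (h : GM p k f g) (g' : G' → K)
    (hg' : ∀ (T I : Type) (_ : Finite T) (_ : Fintype I) (M : LM (⊥ : Subalgebra k K) ⊤ T I),
      Frc M → (∀ b, IsB M (g b)) → ∀ b', IsB M (g' b')) : GM p k f g' := by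
  obtain ⟨T, I, hT, hI, M, n, a, h, Γ, hN, hG, hR⟩ := h
  have h1 : ∀ b', IsB M (g' b') := hg' T I hT hI M hR fun b => ⟨Γ b, fun t => hG b t⟩
  choose Γ' hΓ' using h1
  exact ⟨T, I, hT, hI, M, n, a, h, Γ', hN, fun b t => hΓ' b t, hR⟩

theorem md_of_mod (p : ℕ) (h : Mod k P) [IsEmpty ι] (f : ι → K) : Md p k P f := by
  intro B _ b hb hb0
  obtain ⟨h1, -, -⟩ := Pool.Agent.N102.TF.gm_of_mod p h b hb hb0
  have h2 := h1.reindex (fun i : ι => (isEmptyElim i : Empty)) (fun i => isEmptyElim i) id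
  have h3 : (fun e : Empty => (e.elim : K)) ∘ (fun i : ι => (isEmptyElim i : Empty)) = f :=
    funext fun i => isEmptyElim i
  rw [h3] at h2
  exact h2

/-- Products and roots. -/
theorem md_sat (h : Md p k P f) {Q : Set K}
    (hQ : ∀ z ∈ Q, z ≠ 0 → ∃ (n : ℕ), n ≠ 0 ∧ ∃ (c : k) (l : ℕ) (a : Fin l → K) (e : Fin l → ℤ),
      (∀ i, a i ∈ P) ∧ z ^ n = algebraMap k K c * ∏ i, a i ^ e i) : Md p k Q f := by
  classical
  intro B _ b hb hb0
  choose n hn c l a e ha hz using fun i => hQ (b i) (hb i) (hb0 i)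
  refine gm_sub (h {t : Σ i, Fin (l i) // a t.1 t.2 ≠ 0} (fun t => a t.1.1 t.1.2)
    (fun t => ha _ _) (fun t => t.2)) b ?_
  intro T I _ _ M hFr hM i
  refine isB_of_pow hFr (hn i) ?_
  have h0 : algebraMap k K (c i) * ∏ j, a i j ^ e i j ≠ 0 := by
    rw [← hz]
    exact pow_ne_zero _ (hb0 i)
  rw [hz]
  have hc0 : c i ≠ 0 := by
    intro h
    apply h0
    rw [h, map_zero, zero_mul]
  have hconst : IsB M (algebraMap k K (c i)) :=
    ⟨0, fun t => ⟨algebraMap k K (c i), (_root_.map_ne_zero _).2 hc0,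
      Subalgebra.algebraMap_mem _ _, by
        rw [← map_inv₀]
        exact Subalgebra.algebraMap_mem _ _, by simp⟩⟩
  have hzp : ∀ (z : K) (m : ℤ), IsB M z → IsB M (z ^ m) := by
    intro z m hz
    rcases le_or_gt 0 m with h | h
    · obtain ⟨m', rfl⟩ := Int.eq_ofNat_of_zero_le h
      rw [zpow_natCast]
      exact hz.pow m'
    · obtain ⟨m', hm'⟩ := Int.eq_ofNat_of_zero_le (show 0 ≤ -m by omega)
      have h1 : m = -(m' : ℤ) := by omega
      rw [h1, zpow_neg, zpow_natCast]
      exact (hz.pow m').inv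
  have hprod : ∀ (s : Finset (Fin (l i))), IsB M (∏ j ∈ s, a i j ^ e i j) := by
    intro s
    induction s using Finset.induction_on with
    | empty => rw [Finset.prod_empty]; exact IsB.one
    | insert j s hj ih =>
      rw [Finset.prod_insert hj]
      refine IsB.mul ?_ ih
      by_cases h : a i j = 0
      · have h1 : e i j = 0 := by
          by_contra h2
          apply h0
          rw [Finset.prod_eq_zero (Finset.mem_univ j), mul_zero]
          rw [h, zero_zpow _ h2]
        rw [h1, zpow_zero]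
        exact IsB.one
      · exact hzp _ _ (hM ⟨⟨i, j⟩, h⟩)
  exact hconst.mul (hprod _)

/-- Surfaces. -/
theorem md_surf (p : ℕ) [Fact p.Prime] {k E : Type u} [Field k] [Field E] [Algebra k E]
    [PerfectField k] [CharP k p] (h2 : Algebra.trdeg k E = 2) (hE : HasModel k E) {ι : Type}
    [Subsingleton ι] (f : ι → E) (hf : ∀ i, ¬ ∃ b, b ^ p = f i) :
    Md p k (Set.univ : Set E) f :=
  fun B _ b _ hb0 => gm_surf' p (SurfM.of_hasModel h2 hE) ι B f hf b hb0

end basic

section prod

variable {p : ℕ} [Fact p.Prime] {k K1 K2 K : Type u} [Field k] [Field K1] [Field K2] [Field K]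
  [Algebra k K1] [Algebra k K2] [Algebra k K] (i1 : K1 →ₐ[k] K) (i2 : K2 →ₐ[k] K)

lemma exists_tensor (hinj : Function.Injective (Algebra.TensorProduct.productMap i1 i2))
    (htop : IntermediateField.adjoin k (Set.range i1 ∪ Set.range i2) = ⊤) (x : K) :
    ∃ a b : K1 ⊗[k] K2, b ≠ 0 ∧
      x * Algebra.TensorProduct.productMap i1 i2 b = Algebra.TensorProduct.productMap i1 i2 a := by
  have hne : ∀ b : K1 ⊗[k] K2, b ≠ 0 → Algebra.TensorProduct.productMap i1 i2 b ≠ 0 :=
    fun b hb h => hb (hinj (h.trans (map_zero _).symm))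
  have hmulne : ∀ a b : K1 ⊗[k] K2, a ≠ 0 → b ≠ 0 → a * b ≠ 0 := by
    intro a b ha hb h
    have h1 := congrArg (Algebra.TensorProduct.productMap i1 i2) h
    rw [map_mul, map_zero] at h1
    exact mul_ne_zero (hne a ha) (hne b hb) h1
  have h1ne : (1 : K1 ⊗[k] K2) ≠ 0 := by
    intro h
    have h1 := congrArg (Algebra.TensorProduct.productMap i1 i2) h
    rw [map_one, map_zero] at h1
    exact one_ne_zero h1
  have hx : x ∈ IntermediateField.adjoin k (Set.range i1 ∪ Set.range i2) := by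
    rw [htop]
    trivial
  induction hx using IntermediateField.adjoin_induction with
  | mem z hz =>
    rcases hz with ⟨c, rfl⟩ | ⟨c, rfl⟩
    · exact ⟨c ⊗ₜ 1, 1, h1ne, by simp⟩
    · exact ⟨1 ⊗ₜ c, 1, h1ne, by simp⟩
  | algebraMap c =>
    exact ⟨algebraMap k _ c, 1, h1ne, by rw [map_one, mul_one, AlgHom.commutes]⟩
  | add x y _ _ hx hy =>
    obtain ⟨a, b, hb, h1⟩ := hx
    obtain ⟨a', b', hb', h2⟩ := hy
    refine ⟨a * b' + a' * b, b * b', hmulne _ _ hb hb', ?_⟩
    rw [map_mul, map_add, map_mul, map_mul, ← h1, ← h2]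
    ring
  | inv x _ hx =>
    obtain ⟨a, b, hb, h1⟩ := hx
    by_cases hx0 : x = 0
    · exact ⟨0, 1, h1ne, by rw [hx0, inv_zero, zero_mul, map_zero]⟩
    · have ha : a ≠ 0 := by
        rintro rfl
        rw [map_zero] at h1
        exact mul_ne_zero hx0 (hne b hb) h1
      refine ⟨b, a, ha, ?_⟩
      rw [← h1, ← mul_assoc, inv_mul_cancel₀ hx0, one_mul]
  | mul x y _ _ hx hy =>
    obtain ⟨a, b, hb, h1⟩ := hx
    obtain ⟨a', b', hb', h2⟩ := hy
    refine ⟨a * a', b * b', hmulne _ _ hb hb', ?_⟩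
    rw [map_mul, map_mul, ← h1, ← h2]
    ring

/-- Products. -/
theorem md_prod (hinj : Function.Injective (Algebra.TensorProduct.productMap i1 i2))
    (htop : IntermediateField.adjoin k (Set.range i1 ∪ Set.range i2) = ⊤)
    {P1 : Set K1} {P2 : Set K2} {ι1 ι2 : Type} {f1 : ι1 → K1} {f2 : ι2 → K2}
    (h1 : Md p k P1 f1) (h2 : Md p k P2 f2) :
    Md p k (i1 '' P1 ∪ i2 '' P2) (Sum.elim (fun j => i1 (f1 j)) fun j => i2 (f2 j)) := by
  classical
  intro B _ b hb hb0
  have hc1 : ∀ i : {i : B // b i ∈ i1 '' P1}, ∃ a ∈ P1, i1 a = b i := fun i => i.2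
  have hc2 : ∀ i : {i : B // b i ∈ i2 '' P2}, ∃ a ∈ P2, i2 a = b i := fun i => i.2
  choose a1 ha1 hb1 using hc1
  choose a2 ha2 hb2 using hc2
  have h3 := gm_prod wd_prod i1 i2 hinj (exists_tensor i1 i2 hinj htop)
    (h1 _ a1 ha1 fun i h => hb0 i (by rw [← hb1, h, map_zero]))
    (h2 _ a2 ha2 fun i h => hb0 i (by rw [← hb2, h, map_zero]))
  refine gm_sub h3 b ?_
  intro T I _ _ M hFr hM i
  rcases hb i with h | h
  · have h4 := hM (Sum.inl ⟨i, h⟩)
    simp only [Sum.elim_inl, hb1] at h4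
    exact h4
  · have h4 := hM (Sum.inr ⟨i, h⟩)
    simp only [Sum.elim_inr, hb2] at h4
    exact h4

end prod

section ops

variable (p : ℕ) [Fact p.Prime] {k L K : Type u} [Field k] [PerfectField k] [CharP k p] [Field L]
  [Field K] [Algebra k L] [Algebra L K] [Algebra k K] [IsScalarTower k L K] {P : Set L}
  {ι ι2 : Type}

lemma exists_trdeg_gm {G : Type} {f : ι → L} {g : G → L} (h : GM p k f g) :
    ∃ d : ℕ, Algebra.trdeg k L = d := by
  obtain ⟨T, I, hT, hI, M, n, a, h, Γ, hN, hG, hR⟩ := h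
  exact exists_trdeg M hR

/-- Radical extensions. -/
theorem md_rad {f : ι → L} (hP : Md p k P f) {g : ℕ} (w : Fin g → K) (hw0 : ∀ j, w j ≠ 0)
    (n : Fin g → ℕ) (hn : ∀ j, ¬ p ∣ n j) (hw : ∀ j, ∃ z ∈ P, w j ^ n j = algebraMap L K z)
    (hgen : IntermediateField.adjoin L (Set.range w) = ⊤) :
    Md p k (algebraMap L K '' P ∪ Set.range w) (fun i => algebraMap L K (f i)) := by
  classical
  intro B _ b hb hb0
  choose z hz hwz using hw
  have hc1 : ∀ i : {i : B // b i ∈ algebraMap L K '' P}, ∃ a ∈ P, algebraMap L K a = b i :=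
    fun i => i.2
  choose a ha hba using hc1
  have hz0 : ∀ j, z j ≠ 0 := by
    intro j h
    apply pow_ne_zero (n j) (hw0 j)
    rw [hwz, h, map_zero]
  have hf1 := Fintype.ofFinite {i : B // b i ∈ algebraMap L K '' P}
  let c : {i : B // b i ∈ algebraMap L K '' P} ⊕ Fin g → L := Sum.elim a z
  have hGM := hP ({i : B // b i ∈ algebraMap L K '' P} ⊕ Fin g) c
    (by
      rintro (i | i)
      · exact ha i
      · exact hz i)
    (by
      rintro (i | i)
      · intro h
        apply hb0 i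
        rw [← hba]
        change algebraMap L K (c (Sum.inl i)) = 0
        rw [h, map_zero]
      · exact hz0 i)
  obtain ⟨d0, htr⟩ := exists_trdeg_gm p hGM
  set μ : ℕ := ∏ j, n j with hμ
  have hnk : ∀ j, (n j : k) ≠ 0 := fun j h => hn j ((CharP.cast_eq_zero_iff k p _).1 h)
  have hμ0 : (μ : k) ≠ 0 := by
    rw [hμ, Nat.cast_prod]
    exact Finset.prod_ne_zero_iff.2 fun j _ => hnk j
  let m : Fin g → ℕ := fun j => ∏ l ∈ Finset.univ.erase j, n l
  have hm : ∀ j, μ = n j * m j := by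
    intro j
    rw [hμ, ← Finset.mul_prod_erase Finset.univ n (Finset.mem_univ j)]
  have h3 := kummer_gm p htr hμ0 hw0 hGM (fun j => Pi.single (Sum.inr j) (m j : ℤ)) (fun j => by
    rw [Finset.prod_eq_single (Sum.inr j)]
    · rw [Pi.single_eq_same, zpow_natCast, hm j, pow_mul, hwz, map_pow]
      rfl
    · intro l _ hl
      rw [Pi.single_eq_of_ne hl, zpow_zero]
    · intro h
      exact absurd (Finset.mem_univ _) h) hgen
  refine gm_sub h3 b ?_
  intro T I _ _ M hFr hM i
  rcases hb i with h | ⟨j, hj⟩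
  · have h4 := hM (Sum.inl (Sum.inl ⟨i, h⟩))
    simp only [Sum.elim_inl] at h4
    change IsB M (algebraMap L K (a ⟨i, h⟩)) at h4
    rwa [hba] at h4
  · have h4 := hM (Sum.inr j)
    simp only [Sum.elim_inr] at h4
    rwa [hj] at h4

/-- Pencils. -/
theorem md_pencil {f : Option ι → L} (hP : Md p k P f) (Z : K) (hZ : Transcendental L Z)
    (hgen : IntermediateField.adjoin L {Z} = ⊤) :
    Md p k (insert (Z ^ p - algebraMap L K (f none)) (algebraMap L K '' P))
      (fun o => algebraMap L K (f o)) := by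
  classical
  intro B _ b hb hb0
  have hc1 : ∀ i : {i : B // b i ∈ algebraMap L K '' P}, ∃ a ∈ P, algebraMap L K a = b i :=
    fun i => i.2
  choose a ha hba using hc1
  have h1 := pencil3 p f a (hP _ a ha fun i h => hb0 i (by rw [← hba, h, map_zero])) Z hZ hgen
  refine gm_sub h1 b ?_
  intro T I _ _ M hFr hM i
  by_cases h : b i ∈ algebraMap L K '' P
  · have h4 := hM (Sum.inl ⟨i, h⟩)
    simp only [Sum.elim_inl, hba] at h4
    exact h4
  · have h5 : b i = Z ^ p - algebraMap L K (f none) := (hb i).resolve_right h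
    have h4 := hM (Sum.inr ())
    rw [h5]
    exact h4

/-- Sums. -/
theorem md_add [Finite ι] {ι' : Type} {f : ι → L} (hP : Md p k P f) (b : ι' → L)
    (c : ι' → ι → k) (hne : ∀ i, c i ≠ 0)
    (hd : ∀ i i', i ≠ i' → ∀ j, c i j = 0 ∨ c i' j = 0) (f' : ι' → L)
    (hf' : ∀ (_ : Fintype ι) i, f' i = b i ^ p + ∑ j, algebraMap k L (c i j) * f j) :
    Md p k P f' := by
  intro B _ g hg hg0
  have : Fintype ι := Fintype.ofFinite ι
  have h1 := (hP B g hg hg0).reindex (Sum.elim id (fun e : Empty => e.elim) : ι ⊕ Empty → ι) (by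
    rintro (x | x) (y | y) h
    · exact congrArg _ h
    · exact y.elim
    · exact x.elim
    · exact x.elim) id
  have e1 : f ∘ (Sum.elim id (fun e : Empty => e.elim) : ι ⊕ Empty → ι) =
      Sum.elim f (fun e : Empty => e.elim) := by
    funext x
    rcases x with x | x
    · rfl
    · exact x.elim
  rw [e1] at h1
  have h2 := gm_addp p ((gm_add p h1 c hne hd).reindex (Sum.inl : ι' → ι' ⊕ Empty)
    Sum.inl_injective id) b
  have e2 : f' = fun j => b j ^ p + ((Sum.elim (fun i => ∑ j, algebraMap k L (c i j) * f j)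
      (fun e : Empty => (e.elim : L))) ∘ (Sum.inl : ι' → ι' ⊕ Empty)) j :=
    funext fun i => hf' inferInstance i
  rw [e2]
  exact h2

end ops

end Pool.Agent.KS6_21.P1
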