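import Pool.Agent.KS6_21.P1.Ops

/-!
Products of functions, roots, and systems of equations.
-/

set_option autoImplicit false
set_option linter.unusedVariables false
set_option linter.unusedSectionVars false

universe u w

open Polynomial Pool.Agent.W558 Pool.Agent.W177.WD Pool.Agent.TH188.WQ Pool.Agent.TH188.WP
  Pool.Agent.N98 Pool.Agent.N762.RC Pool.Agent.N762.RC2 Pool.Agent.N762.FP Pool.Agent.TH214.V
  Pool.Agent.TH214.SD TensorProduct

namespace Pool.Agent.KS6_21.P1

section mulp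

variable {p : ℕ} [Fact p.Prime] {k L : Type u} [Field k] [CharP k p] [Field L] [Algebra k L]

/-- Multiplication with `p`-th powers of boundary functions. -/
theorem gm_mulp {ι G : Type} {f : ι → L} {g : G → L} (h : GM p k f g) (b : ι → L)
    (hb : ∀ (T I : Type) (_ : Finite T) (_ : Fintype I) (M : LM (⊥ : Subalgebra k L) ⊤ T I),
      Frc M → (∀ b, IsB M (g b)) → ∀ i, IsB M (b i)) :
    GM p k (fun j => b j ^ p * f j) g := by
  classical
  obtain ⟨T, I, hT, hI, M, n, a, h, Γ, hN, hG, hR⟩ := h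
  choose β hβ using hb T I hT hI M hR fun b => ⟨Γ b, fun t => hG b t⟩
  choose w hw0 hwA hwA' hw using fun i t => hβ i t
  have hcL : CharP L p := charP_of_injective_algebraMap (algebraMap k L).injective p
  refine ⟨T, I, hT, hI, M, fun j i => n j i + p * β j i, fun t j => b j * a t j,
    fun t j => w j t ^ p * h t j, Γ, ⟨fun t j => (M.A t).mul_mem ((M.A t).pow_mem (hwA j t) p)
      (hN.hA t j), fun t j => ?_, ?_⟩, hG, hR⟩
  · change b j ^ p * f j = (b j * a t j) ^ p + mn (M.x t) (fun i => n j i + p * β j i) *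
      (w j t ^ p * h t j)
    have h1 : f j = a t j ^ p + mn (M.x t) (n j) * h t j := hN.eq t j
    have h2 : b j = w j t * mn (M.x t) (β j) := hw j t
    rw [mn_add (M.x0 t), mn_mul, h1]
    conv_lhs => rw [mul_add, ← mul_pow]
    congr 1
    conv_lhs => rw [h2]
    ring
  · intro t κ _ _ φ j
    have hp0 : (p : κ) = 0 := cast_zero (k := k) p κ
    obtain ⟨v, hv1, hv2⟩ := hN.ln t κ φ j
    have key : ∀ l, om v (fun i => n l i + p * β l i)
        ((M.A t).mul_mem ((M.A t).pow_mem (hwA l t) p) (hN.hA t l)) =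
        φ ⟨w l t, hwA l t⟩ ^ p * om v (n l) (hN.hA t l) := by
      intro l
      unfold om
      have e1 : (⟨w l t ^ p * h t l, (M.A t).mul_mem ((M.A t).pow_mem (hwA l t) p) (hN.hA t l)⟩ :
          M.A t) = (⟨w l t, hwA l t⟩ : M.A t) ^ p * ⟨h t l, hN.hA t l⟩ := rfl
      rw [e1, v.D.leib, tv_pow, hp0, map_mul, map_pow]
      have e2 : ∀ i, (((n l i + p * β l i : ℤ)) : κ) = (n l i : κ) := by
        intro i
        push_cast
        rw [hp0, zero_mul, add_zero]
      rw [Finset.sum_congr rfl fun i _ => by rw [e2 i]]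
      ring
    have hwne : ∀ l, φ ⟨w l t, hwA l t⟩ ^ p ≠ 0 := by
      intro l
      refine pow_ne_zero p fun h0 => ?_
      have h1 : φ ⟨w l t, hwA l t⟩ * φ ⟨_, hwA' l t⟩ = 1 := by
        rw [← map_mul, ← map_one φ]
        congr 1
        exact Subtype.ext (mul_inv_cancel₀ (hw0 l t))
      rw [h0, zero_mul] at h1
      exact zero_ne_one h1
    refine ⟨v, ?_, fun l hl => ?_⟩
    · rw [key]
      exact mul_ne_zero (hwne j) hv1
    · rw [key, hv2 l hl, mul_zero]

lemma isB_zpow {T I : Type} [Fintype I] {M : LM (⊥ : Subalgebra k L) ⊤ T I} {z : L}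
    (hz : IsB M z) (m : ℤ) : IsB M (z ^ m) := by
  rcases le_or_gt 0 m with h | h
  · obtain ⟨m', rfl⟩ := Int.eq_ofNat_of_zero_le h
    rw [zpow_natCast]
    exact hz.pow m'
  · obtain ⟨m', hm'⟩ := Int.eq_ofNat_of_zero_le (show 0 ≤ -m by omega)
    have h1 : m = -(m' : ℤ) := by omega
    rw [h1, zpow_neg, zpow_natCast]
    exact (hz.pow m').inv

lemma isB_prod {T I : Type} [Fintype I] {M : LM (⊥ : Subalgebra k L) ⊤ T I} {J : Type}
    (s : Finset J) (z : J → L) (hz : ∀ j ∈ s, IsB M (z j)) : IsB M (∏ j ∈ s, z j) := by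
  classical
  induction s using Finset.induction_on with
  | empty => rw [Finset.prod_empty]; exact IsB.one
  | insert j s hj ih =>
    rw [Finset.prod_insert hj]
    exact (hz j (Finset.mem_insert_self _ _)).mul (ih fun i hi => hz i (Finset.mem_insert_of_mem hi))

/-- The functions of a joint normal form are not `p`-th powers. -/
lemma gm_ne_pow {ι G : Type} {f : ι → L} {g : G → L} (h : GM p k f g) (j : ι) (b : L) :
    b ^ p ≠ f j := by
  obtain ⟨T, I, hT, hI, M, n, a, h, Γ, hN, hG, hR⟩ := h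
  exact nf_ne_pow M hR hN j b

end mulp

section ops

variable (p : ℕ) [Fact p.Prime] {k L K : Type u} [Field k] [PerfectField k] [CharP k p] [Field L]
  [Field K] [Algebra k L] [Algebra L K] [Algebra k K] [IsScalarTower k L K] {P : Set L}
  {ι ι2 : Type}

lemma exists_quot (m : ℤ) : ∃ q : ℤ, m = ((m : ZMod p).val : ℤ) + p * q := by
  refine ⟨m / p, ?_⟩
  rw [ZMod.val_intCast]
  have := Int.emod_add_mul_ediv m p
  omega

/-- Powers modulo `p`-th powers. -/
lemma prod_pw [Fintype ι] {f : ι → L} (hf : ∀ j, f j ≠ 0) (m : ι → ℤ) :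
    ∃ q : ι → ℤ, ∏ j, f j ^ m j = (∏ j, f j ^ q j) ^ p * pw p f (fun j => (m j : ZMod p)) := by
  choose q hq using fun j => exists_quot p (m j)
  refine ⟨q, ?_⟩
  unfold pw
  rw [← Finset.prod_pow, ← Finset.prod_mul_distrib]
  refine Finset.prod_congr rfl fun j _ => ?_
  conv_lhs => rw [hq j]
  rw [zpow_add₀ (hf j), zpow_natCast, mul_comm (p : ℤ), zpow_mul, zpow_natCast]
  ring

/-- Products. -/
theorem md_mul [Finite ι] {ι' : Type} {f : ι → L} (hP : Md p k P f)
    (m : ι' → ι → ℤ) (hne : ∀ i, ∃ j, ¬ (p : ℤ) ∣ m i j)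
    (hd : ∀ i i', i ≠ i' → ∀ j, (p : ℤ) ∣ m i j ∨ (p : ℤ) ∣ m i' j)
    (hm : ∀ i j, m i j ≠ 0 → f j ∈ P ∨ (∀ l, (l = j → m i l = 1) ∧ (l ≠ j → m i l = 0)))
    (f' : ι' → L)
    (hf' : ∀ (_ : Fintype ι) i, f' i = ∏ j, f j ^ m i j) : Md p k P f' := by
  classical
  have hpr : p.Prime := Fact.out
  have hpz : Prime (p : ℤ) := Nat.prime_iff_prime_int.1 hpr
  intro B _ g hg hg0
  have : Fintype ι := Fintype.ofFinite ι
  have hfne : ∀ j, f j ≠ 0 := by
    intro j h0
    exact gm_ne_pow (hP B g hg hg0) j 0 (by rw [h0, zero_pow hpr.ne_zero])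
  let J1 : Type := {j : ι // f j ∈ P}
  let J2 : Type := {j : ι // f j ∉ P}
  have h1 := (hP (B ⊕ J1) (Sum.elim g fun j => f j.1)
    (by
      rintro (i | i)
      · exact hg i
      · exact i.2)
    (by
      rintro (i | i)
      · exact hg0 i
      · exact hfne _)).reindex (Sum.elim Subtype.val Subtype.val : J1 ⊕ J2 → ι) (by
    rintro (x | x) (y | y) h
    · exact congrArg _ (Subtype.ext h)
    · have h' : (x : ι) = y := h
      exact absurd (h' ▸ x.2 : f (y : ι) ∈ P) y.2
    · have h' : (x : ι) = y := h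
      exact absurd (h' ▸ y.2 : f (x : ι) ∈ P) x.2
    · exact congrArg _ (Subtype.ext h)) id
  have e1 : f ∘ (Sum.elim Subtype.val Subtype.val : J1 ⊕ J2 → ι) =
      Sum.elim (fun j : J1 => f j.1) (fun j : J2 => f j.1) := by
    funext x
    rcases x with x | x <;> rfl
  rw [e1] at h1
  -- the rows
  let I1 : Type := {i : ι' // ∀ j, m i j ≠ 0 → f j ∈ P}
  have hrow : ∀ i : ι', (¬ ∀ j, m i j ≠ 0 → f j ∈ P) → ∃ j : J2, ∀ l,
      (l = (j : ι) → m i l = 1) ∧ (l ≠ (j : ι) → m i l = 0) := by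
    intro i hi
    push Not at hi
    obtain ⟨j, hj, hjP⟩ := hi
    exact ⟨⟨j, hjP⟩, (hm i j hj).resolve_left hjP⟩
  choose jj hjj using hrow
  have h2 := gm_mul p h1 (fun j => Submonoid.subset_closure ⟨Sum.inr j, rfl⟩)
    (fun (i : I1) (j : J1) => ((m i.1 j.1 : ℤ) : ZMod p))
    (by
      intro i h0
      obtain ⟨j, hj⟩ := hne i.1
      have hj0 : m i.1 j ≠ 0 := fun h => hj (by rw [h]; exact dvd_zero _)
      have h3 := congrFun h0 ⟨j, i.2 j hj0⟩
      exact hj ((ZMod.intCast_zmod_eq_zero_iff_dvd _ p).1 h3))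
    (by
      intro i i' hii j
      rcases hd i.1 i'.1 (fun h => hii (Subtype.ext h)) j.1 with h | h
      · exact Or.inl ((ZMod.intCast_zmod_eq_zero_iff_dvd _ p).2 h)
      · exact Or.inr ((ZMod.intCast_zmod_eq_zero_iff_dvd _ p).2 h))
  let ρ : ι' → I1 ⊕ J2 := fun i => if hi : ∀ j, m i j ≠ 0 → f j ∈ P then Sum.inl ⟨i, hi⟩
    else Sum.inr (jj i hi)
  have hρ : Function.Injective ρ := by
    intro i i' h
    by_contra hii
    by_cases hi : ∀ j, m i j ≠ 0 → f j ∈ P
    · by_cases hi' : ∀ j, m i' j ≠ 0 → f j ∈ P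
      · simp only [ρ, dif_pos hi, dif_pos hi'] at h
        exact hii (congrArg Subtype.val (Sum.inl_injective h))
      · simp only [ρ, dif_pos hi, dif_neg hi'] at h
        exact Sum.inl_ne_inr h
    · by_cases hi' : ∀ j, m i' j ≠ 0 → f j ∈ P
      · simp only [ρ, dif_neg hi, dif_pos hi'] at h
        exact Sum.inr_ne_inl h
      · simp only [ρ, dif_neg hi, dif_neg hi'] at h
        have h3 : jj i hi = jj i' hi' := Sum.inr_injective h
        have h4 := (hjj i hi (jj i' hi')).1 (by rw [h3])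
        have h5 := (hjj i' hi' (jj i' hi')).1 rfl
        rcases hd i i' hii (jj i' hi') with h6 | h6
        · rw [h4] at h6
          exact hpz.not_dvd_one h6
        · rw [h5] at h6
          exact hpz.not_dvd_one h6
  have h3 := h2.reindex ρ hρ id
  -- the `p`-th powers
  choose q hq using fun i : I1 => prod_pw p (f := fun j : J1 => f j.1) (fun j => hfne _)
    (fun j => m i.1 j.1)
  have h4 := gm_mulp h3 (fun i => if hi : ∀ j, m i j ≠ 0 → f j ∈ P then
    ∏ j : J1, f j.1 ^ q ⟨i, hi⟩ j else 1) (by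
      intro T I _ _ M hFr hM i
      by_cases hi : ∀ j, m i j ≠ 0 → f j ∈ P
      · rw [dif_pos hi]
        exact isB_prod _ _ fun j _ => isB_zpow (hM (Sum.inr j)) _
      · rw [dif_neg hi]
        exact IsB.one)
  have e2 : f' = fun i => (if hi : ∀ j, m i j ≠ 0 → f j ∈ P then
      ∏ j : J1, f j.1 ^ q ⟨i, hi⟩ j else 1) ^ p * ((Sum.elim (fun i : I1 => pw p
        (fun j : J1 => f j.1) (fun j : J1 => ((m i.1 j.1 : ℤ) : ZMod p)))
        (fun j : J2 => f j.1)) ∘ ρ) i := by
    funext i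
    rw [hf' inferInstance i]
    by_cases hi : ∀ j, m i j ≠ 0 → f j ∈ P
    · simp only [Function.comp_apply, ρ, dif_pos hi, Sum.elim_inl]
      rw [← hq ⟨i, hi⟩]
      rw [← Fintype.prod_subtype_mul_prod_subtype (fun j : ι => f j ∈ P)
        (fun j : ι => f j ^ m i j)]
      have h5 : ∏ j : {j : ι // ¬ f j ∈ P}, f (j : ι) ^ m i j = 1 := by
        refine Finset.prod_eq_one fun j _ => ?_
        have h6 : m i j = 0 := by
          by_contra h7
          exact j.2 (hi j h7)
        rw [h6, zpow_zero]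
      rw [h5, mul_one]
    · simp only [Function.comp_apply, ρ, dif_neg hi, Sum.elim_inr, one_pow, one_mul]
      rw [Finset.prod_eq_single ((jj i hi : J2) : ι)]
      · rw [(hjj i hi _).1 rfl, zpow_one]
      · intro l _ hl
        rw [(hjj i hi l).2 hl, zpow_zero]
      · intro h
        exact absurd (Finset.mem_univ _) h
  rw [e2]
  refine gm_sub h4 g ?_
  intro T I _ _ M hFr hM i
  exact hM (Sum.inl i)

end ops

end Pool.Agent.KS6_21.P1
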