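import Pool.Agent.KS6_21.P1.Ops2

/-!
Roots, and systems of equations.
-/

set_option autoImplicit false
set_option linter.unusedVariables false
set_option linter.unusedSectionVars false

universe u w

open Polynomial Pool.Agent.W558 Pool.Agent.TH188.WQ Pool.Agent.TH188.WP
  Pool.Agent.N98 Pool.Agent.N762.RC Pool.Agent.N762.RC2 Pool.Agent.N762.FP Pool.Agent.TH214.V
  TensorProduct

namespace Pool.Agent.KS6_21.P1

section roots

variable (p : ℕ) [Fact p.Prime] {k L K : Type u} [Field k] [PerfectField k] [CharP k p] [Field L]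
  [Field K] [Algebra k L] [Algebra L K] [Algebra k K] [IsScalarTower k L K] {P : Set L}
  {ι ι2 : Type}

/-- Roots of sums. -/
theorem md_root_add [Finite ι] [Finite ι2] {f : ι → L} {f2 : ι2 → L}
    (hP : Md p k P (Sum.elim f f2)) {r : ℕ} (w : Fin r → K)
    (hw : ∀ j, w j ^ p ∈ Submodule.span k (Set.range fun i => algebraMap L K (f i)))
    (hgen : IntermediateField.adjoin L (Set.range w) = ⊤) :
    Md p k (algebraMap L K '' P) (fun i => algebraMap L K (f2 i)) := by
  classical
  have h1 : Fintype ι := Fintype.ofFinite ι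
  have h2 : Fintype ι2 := Fintype.ofFinite ι2
  have h3 : ∀ j, ∃ c : ι → k, ∑ i, c i • algebraMap L K (f i) = w j ^ p := fun j =>
    (Submodule.mem_span_range_iff_exists_fun k).1 (hw j)
  choose c hc using h3
  intro B _ b hb hb0
  choose a ha hba using hb
  have h4 := root_add p (hP B a ha fun i h => hb0 i (by rw [← hba, h, map_zero])) r w c
    (fun j => by
      rw [← hc j, map_sum]
      refine Finset.sum_congr rfl fun i _ => ?_
      rw [map_mul, Algebra.smul_def, ← IsScalarTower.algebraMap_apply k L K]) hgen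
  refine gm_sub h4 b ?_
  intro T I _ _ M hFr hM i
  rw [← hba]
  exact hM i

/-- Roots of products. -/
theorem md_root_mul [Finite ι] [Finite ι2] {f : ι → L} {f2 : ι2 → L}
    (hP : Md p k P (Sum.elim f f2)) (hfP : ∀ i, f i ∈ P) {r : ℕ} (w : Fin r → K)
    (m : Fin r → ι → ℤ)
    (hw : ∀ (_ : Fintype ι) j, w j ^ p = ∏ i, algebraMap L K (f i) ^ m j i)
    (hgen : IntermediateField.adjoin L (Set.range w) = ⊤) :
    Md p k (algebraMap L K '' P ∪ Set.range w) (fun i => algebraMap L K (f2 i)) := by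
  classical
  have hpr : p.Prime := Fact.out
  have h1 : Fintype ι := Fintype.ofFinite ι
  have h2 : Fintype ι2 := Fintype.ofFinite ι2
  have hfne : ∀ j, f j ≠ 0 := by
    intro j h0
    exact gm_ne_pow (hP Empty (fun e => e.elim) (fun e => e.elim) (fun e => e.elim)) (Sum.inl j) 0
      (by rw [Sum.elim_inl, h0, zero_pow hpr.ne_zero])
  choose q hq using fun j : Fin r => prod_pw p hfne (m j)
  have hqne : ∀ j, ∏ l, f l ^ q j l ≠ 0 := fun j =>
    Finset.prod_ne_zero_iff.2 fun l _ => zpow_ne_zero _ (hfne l)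
  let w' : Fin r → K := fun j => algebraMap L K (∏ l, f l ^ q j l)⁻¹ * w j
  have hw' : ∀ j, w' j ^ p = algebraMap L K (Pool.Agent.TH188.WQ.pw p f
      (fun l => (m j l : ZMod p))) := by
    intro j
    have h3 : ∏ i, algebraMap L K (f i) ^ m j i = algebraMap L K (∏ i, f i ^ m j i) := by
      rw [map_prod]
      exact Finset.prod_congr rfl fun i _ => (map_zpow₀ _ _ _).symm
    rw [mul_pow, hw inferInstance j, h3, hq j, ← map_pow, ← map_mul]
    congr 1
    have := pow_ne_zero p (hqne j)
    rw [inv_pow]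
    field_simp
  have hgen' : IntermediateField.adjoin L (Set.range w') = ⊤ := by
    rw [eq_top_iff, ← hgen, IntermediateField.adjoin_le_iff]
    rintro _ ⟨j, rfl⟩
    have h3 : w j = algebraMap L K (∏ l, f l ^ q j l) * w' j := by
      simp only [w']
      rw [← mul_assoc, ← map_mul, mul_inv_cancel₀ (hqne j), map_one, one_mul]
    rw [h3]
    exact mul_mem (IntermediateField.algebraMap_mem _ _)
      (IntermediateField.subset_adjoin _ _ ⟨j, rfl⟩)
  intro B _ b hb hb0
  have hc1 : ∀ i : {i : B // b i ∈ algebraMap L K '' P}, ∃ a ∈ P, algebraMap L K a = b i :=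
    fun i => i.2
  choose a ha hba using hc1
  have h4 := root_mul p (hP ({i : B // b i ∈ algebraMap L K '' P} ⊕ ι) (Sum.elim a f)
    (by
      rintro (i | i)
      · exact ha i
      · exact hfP i)
    (by
      rintro (i | i)
      · intro h
        apply hb0 i
        rw [← hba]
        change algebraMap L K (a i) = 0
        rw [show a i = 0 from h, map_zero]
      · exact hfne i)) (fun j => Submonoid.subset_closure ⟨Sum.inr j, rfl⟩) hfne r w' _ hw' hgen'
  refine gm_sub h4 b ?_
  intro T I _ _ M hFr hM i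
  rcases hb i with h | ⟨j, hj⟩
  · have h5 := hM (Sum.inl ⟨i, h⟩)
    simp only [Sum.elim_inl, hba] at h5
    exact h5
  · rw [← hj]
    refine isB_of_pow hFr hpr.ne_zero ?_
    rw [hw inferInstance j]
    exact isB_prod _ _ fun l _ => isB_zpow (hM (Sum.inr l)) _

end roots

section system

open Pool.Agent.TH214.SD Pool.Agent.N102.FL Pool.Agent.N102.TF

variable {p : ℕ} [Fact p.Prime] {k L K : Type u} [Field k] [PerfectField k] [CharP k p]
  [Field L] [Field K] [Algebra k L] [Algebra k K] [Algebra L K]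
  [IsScalarTower k L K] {h s n q c a : ℕ}
  {v : Fin h → L} {e : Fin s → ℕ} {z : Fin s → K} {x : Fin n → K}
  {G : Fin q → (Fin (h + s) ⊕ Fin n → ℤ) →₀ k} {F : Fin a → (Fin (h + s) ⊕ Fin n → ℤ) →₀ k}
  {ι : Type}

/-- **Systems of equations.** -/
theorem md_system {P : Set L} {f : ι → L} (hP : Md p k P f) (hv : ∀ b, v b ∈ P)
    (hB : IsLeveledSystemOver (E := L) (K := K) p c v e z x G)
    (hF : StronglyNondegenerateOn G F) :
    Md p k (algebraMap L K '' P ∪ (Set.range x ∪ {g | IsLinearForm k p e z g}))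
      (Sum.elim (fun i => algebraMap L K (f i)) fun t =>
        value (F t) (Fin.append (fun b => algebraMap L K (v b)) z) x) := by
  classical
  have hp : p.Prime := Fact.out
  have hcK1 : CharP K p := charP_of_injective_algebraMap (algebraMap k K).injective p
  intro B _ b hb hb0
  -- the elements of `P`
  have hc1 : ∀ i : {i : B // b i ∈ algebraMap L K '' P}, ∃ a ∈ P, algebraMap L K a = b i :=
    fun i => i.2
  choose a' ha' hba using hc1
  -- the linear forms
  obtain ⟨m, ⟨ε⟩⟩ : ∃ m : ℕ, Nonempty ({i : B // IsLinearForm k p e z (b i)} ≃ Fin m) :=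
    ⟨_, ⟨Finite.equivFin _⟩⟩
  obtain ⟨Θ, _, Q, _, y, d, G', F', hy0, hgen, htr, hdΘ, hND, hval, hF', hyx, hyg⟩ :=
    exists_schon_over hB hF m (fun i => b (ε.symm i).1) (fun i => hb0 _) (fun i => (ε.symm i).2)
  have ha0 : ∀ i, a' i ≠ 0 := by
    intro i h
    apply hb0 i
    rw [← hba, h, map_zero]
  let gB : Fin h ⊕ {i : B // b i ∈ algebraMap L K '' P} → L := Sum.elim v a'
  have hGM0 := hP _ gB
    (by
      rintro (i | i)
      · exact hv i
      · exact ha' i)
    (by
      rintro (i | i)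
      · exact hB.ne_zero.1 i
      · exact ha0 i)
  obtain ⟨d0, hd0⟩ := exists_trdeg_gm p hGM0
  have hBf : Fintype {i : B // b i ∈ algebraMap L K '' P} := Fintype.ofFinite _
  set N := Fintype.card Θ with hN
  let εΘ : Θ ≃ Fin N := Fintype.equivFin Θ
  let y' : Fin N → K := fun j => y (εΘ.symm j)
  have hy' : ∀ j, y' j ≠ 0 := fun j => hy0 _
  have hgen' : IntermediateField.adjoin L (Set.range y') = ⊤ := by
    rw [← hgen]
    congr 1
    ext w'
    constructor
    · rintro ⟨j, rfl⟩
      exact ⟨_, rfl⟩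
    · rintro ⟨θ, rfl⟩
      exact ⟨εΘ θ, congrArg y (εΘ.symm_apply_apply θ)⟩
  have htr1 : Algebra.trdeg k K = ((d0 + d : ℕ) : Cardinal.{u}) := by
    rw [← trdeg_add_eq k L (A := K), hd0, htr, Nat.cast_add]
  have hdn : ∃ b : Fin (d0 + d) → K, AlgebraicIndependent k b := exists_dn (E1 := K) htr1
  let ι2 : (Fin h ⊕ Θ) ↪ (Fin h ⊕ {i : B // b i ∈ algebraMap L K '' P}) ⊕ Fin N :=
    ⟨Sum.map Sum.inl εΘ, Function.Injective.sumMap Sum.inl_injective εΘ.injective⟩
  have hright : ∀ j, (ι2 j).isRight = j.isRight := by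
    intro j
    rcases j with q | q <;> rfl
  let gy : (Fin h ⊕ {i : B // b i ∈ algebraMap L K '' P}) ⊕ Fin N → K :=
    Sum.elim (fun b => (IsScalarTower.toAlgHom k L K) (gB b)) y'
  have hz : (fun j => gy (ι2 j)) = Sum.elim (fun b => algebraMap L K (v b)) y := by
    funext j
    rcases j with q | q
    · rfl
    · exact congrArg y (εΘ.symm_apply_apply q)
  have hlv : ∀ A : (Fin h ⊕ Θ → ℤ) →₀ k, TH214.V.lv (exF ι2 A) gy =
      TH214.V.lv A (Sum.elim (fun b => algebraMap L K (v b)) y) := by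
    intro A
    rw [exF_lv, hz]
  have hNDe : NDV (fun s => exF ι2 (G' s)) (fun t => exF ι2 (F' t))
      (fun q => q.isRight = true) (fun _ => True) (N - d) :=
    (show NDV G' F' (fun j => (ι2 j).isRight = true) (fun _ => True) (N - d) by
      simp only [hright]
      exact hND).ext ι2 fun i h => h
  have hGv : ∀ s, TH214.V.lv (exF ι2 (G' s)) gy = 0 := fun s => (hlv _).trans (hval s)
  have hFv : ∀ t, TH214.V.lv (exF ι2 (F' t)) gy =
      value (F t) (Fin.append (fun b => algebraMap L K (v b)) z) x := fun t =>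
    (hlv _).trans (hF' t)
  have hGM := gm_relative p (c := N - d) (d := d0 + d) hd0
    (j1' := IsScalarTower.toAlgHom k L K) hy' (evm_gen hgen') (by omega) hdn hGM0
    (fun s => exF ι2 (G' s)) (fun t => exF ι2 (F' t)) hGv hNDe
  have e1 : (Sum.elim (fun l => (IsScalarTower.toAlgHom k L K) (f l))
      (fun t => TH214.V.lv (exF ι2 (F' t))
        (Sum.elim (fun b => (IsScalarTower.toAlgHom k L K) (gB b)) y')) : ι ⊕ Fin a → K) =
      Sum.elim (fun i => algebraMap L K (f i)) fun t =>
        value (F t) (Fin.append (fun b => algebraMap L K (v b)) z) x := by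
    funext o
    rcases o with i | t
    · rfl
    · exact hFv t
  rw [e1] at hGM
  refine gm_sub hGM b ?_
  intro T I _ _ M hFr hM i
  rcases hb i with h1 | h1 | h1
  · have h2 := hM (Sum.inl (Sum.inr ⟨i, h1⟩))
    rw [← hba ⟨i, h1⟩]
    exact h2
  · obtain ⟨j, hj⟩ := h1
    obtain ⟨θ, hθ⟩ := hyx j
    have h2 := hM (Sum.inr (εΘ θ))
    rw [Sum.elim_inr] at h2
    change IsB M (y (εΘ.symm (εΘ θ))) at h2
    rw [Equiv.symm_apply_apply, hθ, hj] at h2
    exact h2
  · obtain ⟨θ, hθ⟩ := hyg (ε ⟨i, h1⟩)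
    have h2 := hM (Sum.inr (εΘ θ))
    rw [Sum.elim_inr] at h2
    change IsB M (y (εΘ.symm (εΘ θ))) at h2
    rw [Equiv.symm_apply_apply, hθ, Equiv.symm_apply_apply] at h2
    exact h2

end system

end Pool.Agent.KS6_21.P1
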