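import Pool.Agent.KS6_21.P1.Chart

/-!
Adding the divisor `Z ^ p = f` to the boundary of the line bundle.
-/

set_option autoImplicit false
set_option linter.unusedVariables false
set_option linter.unusedSectionVars false

universe u

open Polynomial Pool.Agent.W558 Pool.Agent.W177.WD Pool.Agent.TH188.WQ

namespace Pool.Agent.KS6_21.P1

section gg

variable {k K : Type u} [Field k] [Field K] [Algebra k K] {R0 R : Subalgebra k K} {T I : Type}
  (M : LM R0 R T I)

/-- `z` has a denominator `(H t' / H t) ^ n` on the chart `t`. -/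
def GG (t t' : T) (z : K) : Prop := ∃ n : ℕ, (M.H t' / M.H t) ^ n * z ∈ M.A t

variable {M} {t t' : T}

lemma GG.of_mem {z : K} (h : z ∈ M.A t) : GG M t t' z := ⟨0, by simpa using h⟩

lemma GG.of_mem' {z : K} (h : z ∈ M.A t') : GG M t t' z := M.gl t t' z h

lemma GG.mul {z w : K} (h1 : GG M t t' z) (h2 : GG M t t' w) : GG M t t' (z * w) := by
  obtain ⟨n, hn⟩ := h1
  obtain ⟨m, hm⟩ := h2
  refine ⟨n + m, ?_⟩
  have e : (M.H t' / M.H t) ^ (n + m) * (z * w) =
      ((M.H t' / M.H t) ^ n * z) * ((M.H t' / M.H t) ^ m * w) := by ring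
  rw [e]
  exact (M.A t).mul_mem hn hm

lemma GG.pow {z : K} (h1 : GG M t t' z) (n : ℕ) : GG M t t' (z ^ n) := by
  induction n with
  | zero =>
    rw [pow_zero]
    exact GG.of_mem (M.A t).one_mem
  | succ n ih =>
    rw [pow_succ]
    exact ih.mul h1

lemma GG.prod {J : Type} (s : Finset J) (a : J → K) (h : ∀ j ∈ s, GG M t t' (a j)) :
    GG M t t' (∏ j ∈ s, a j) := by
  classical
  induction s using Finset.induction_on with
  | empty =>
    rw [Finset.prod_empty]
    exact GG.of_mem (M.A t).one_mem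
  | insert b s hb ih =>
    rw [Finset.prod_insert hb]
    exact (h b (Finset.mem_insert_self b s)).mul
      (ih fun i hi => h i (Finset.mem_insert_of_mem hi))

lemma GG.x (t t' : T) (i : I) : GG M t t' (M.x t' i / M.x t i) := M.gi t t' i

lemma GG.x' (t t' : T) (i : I) : GG M t t' (M.x t i / M.x t' i) := by
  obtain ⟨n, hn⟩ := M.gi t' t i
  obtain ⟨m, hm⟩ := M.gl t t' _ hn
  refine ⟨m + n, ?_⟩
  have h1 := M.H0 t
  have h2 := M.H0 t'
  have e : (M.H t' / M.H t) ^ (m + n) * (M.x t i / M.x t' i) =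
      ((M.H t' / M.H t) ^ n * (M.H t' / M.H t) ^ n) *
        ((M.H t' / M.H t) ^ m * ((M.H t / M.H t') ^ n * (M.x t i / M.x t' i))) := by
    rw [pow_add]
    have h3 : (M.H t' / M.H t) ^ n * (M.H t / M.H t') ^ n = 1 := by
      rw [← mul_pow]
      have : M.H t' / M.H t * (M.H t / M.H t') = 1 := by field_simp
      rw [this, one_pow]
    linear_combination -(M.H t' / M.H t) ^ n * (M.H t' / M.H t) ^ m * (M.x t i / M.x t' i) * h3
  rw [e]
  exact (M.A t).mul_mem ((M.A t).mul_mem ((M.A t).pow_mem (M.rt t t') n)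
    ((M.A t).pow_mem (M.rt t t') n)) hm

lemma GG.zx (t t' : T) (i : I) (m : ℤ) : GG M t t' ((M.x t i / M.x t' i) ^ m) := by
  rcases le_or_gt 0 m with h | h
  · obtain ⟨n, rfl⟩ := Int.eq_ofNat_of_zero_le h
    rw [zpow_natCast]
    exact (GG.x' t t' i).pow n
  · obtain ⟨n, hn⟩ := Int.eq_ofNat_of_zero_le (show 0 ≤ -m by omega)
    have h1 : m = -(n : ℤ) := by omega
    rw [h1, zpow_neg, zpow_natCast, ← inv_pow, inv_div]
    exact (GG.x t t' i).pow n

/-- The model with an additional divisor with the local equations `f t`. -/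
noncomputable def addD [Fintype I] (M : LM R0 R T I) (F : K) (hF0 : F ≠ 0) (f w : T → K) (γ : I → ℤ)
    (hfA : ∀ t, f t ∈ M.A t)
    (hw : ∀ t, w t ≠ 0 ∧ w t ∈ M.A t ∧ (w t)⁻¹ ∈ M.A t)
    (hF : ∀ t, F = w t * mn (M.x t) γ * f t)
    (hsnc : ∀ t, SNC (M.A t) (fun o : Option I => o.elim (f t) (M.x t))) :
    LM R0 R T (Option I) where
  A := M.A
  H := M.H
  x := fun t o => o.elim (f t) (M.x t)
  sm := M.sm
  base := M.base
  H0 := M.H0
  HR := M.HR
  rt := M.rt
  gl := M.gl
  dn := M.dn
  cv := M.cv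
  xA := by
    rintro t (_ | i)
    · exact hfA t
    · exact M.xA t i
  x0 := by
    rintro t (_ | i)
    · intro h0
      change f t = 0 at h0
      apply hF0
      rw [hF t, h0, mul_zero]
    · exact M.x0 t i
  gi := by
    rintro t t' (_ | i)
    · change GG M t t' (f t' / f t)
      have hf0 : ∀ t, f t ≠ 0 := fun t h0 => hF0 (by rw [hF t, h0, mul_zero])
      have h1 : f t' / f t = w t * (w t')⁻¹ * ∏ i, (M.x t i / M.x t' i) ^ γ i := by
        have h2 := (hF t).symm.trans (hF t')
        have h3 : ∏ i, (M.x t i / M.x t' i) ^ γ i = mn (M.x t) γ * (mn (M.x t') γ)⁻¹ := by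
          unfold mn
          rw [← Finset.prod_inv_distrib, ← Finset.prod_mul_distrib]
          exact Finset.prod_congr rfl fun i _ => by rw [div_zpow, div_eq_mul_inv]
        rw [h3]
        have h4 := mn_ne (M.x0 t') γ
        have h5 := mn_ne (M.x0 t) γ
        have h6 := hf0 t
        have h7 := (hw t').1
        have h8 := (hw t).1
        rw [div_eq_iff h6]
        field_simp
        linear_combination -h2
      rw [h1]
      exact ((GG.of_mem (hw t).2.1).mul (GG.of_mem' (hw t').2.2)).mul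
        (GG.prod _ _ fun i _ => GG.zx t t' i _)
    · exact M.gi t t' i
  snc := hsnc

end gg

section pencil

variable (p : ℕ) [Fact p.Prime] {k L N : Type u} [Field k] [PerfectField k] [CharP k p] [Field L]
  [Field N] [Algebra k L] [Algebra k N] [Algebra L N] [IsScalarTower k L N]

/-- **The pencil.** -/
theorem pencil1 {T0 I0 T I G ι : Type} [Finite T0] [Fintype I0] [Finite T] [Fintype I]
    (B : LM (⊥ : Subalgebra k L) ⊤ T0 I0)
    (f : Option ι → L) (n : Option ι → I0 → ℤ) (a h : T0 → Option ι → L) (hN : NFJ p B f n a h)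
    (g : G → L) (M : LM (⊥ : Subalgebra k N) ⊤ T I) (Z : N) (Q : Subalgebra k N) (y : T → N)
    (c μ : I → ℤ) (π : T → T0) (Θ : I → I0 → ℤ) (Γ : G → I → ℤ)
    (hPS : PS p M (Z ^ p - algebraMap L N (f none)) Q y
      (fun t => algebraMap L N (h (π t) none)) c μ)
    (hLq : Lq M Q) (hFn : Fn M (fun b => algebraMap L N (g b)) Γ) (hF2 : Fin2 M y c)
    (hLf : LfP B M y π Θ) (hce : ∀ i, c i + p * μ i = ∑ i0, Θ i i0 * n none i0)
    (hF0 : Z ^ p - algebraMap L N (f none) ≠ 0) (hQ : ∀ x : N, x ∈ Q ∨ x⁻¹ ∈ Q) :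
    GM p k (fun o => algebraMap L N (f o))
      (Sum.elim (fun b => algebraMap L N (g b))
        (fun _ : Unit => Z ^ p - algebraMap L N (f none))) := by
  classical
  have hp : p.Prime := Fact.out
  choose fe w h' a' hfA hw hF hNF hh' hC using chart3 p M Z _ Q y _ c μ hPS hF2
  have hce' : ∀ (κ : Type u) [Field κ] [Algebra k κ] (e : I → κ),
      ∑ i, (c i : κ) * e i = ∑ i0, (n none i0 : κ) * ∑ i, (Θ i i0 : κ) * e i := by
    intro κ _ _ e
    have hp0 : (p : κ) = 0 := cast_zero (k := k) p κ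
    have h1 : ∀ i, (c i : κ) = ∑ i0, (Θ i i0 : κ) * (n none i0 : κ) := by
      intro i
      have h2 : (((c i + p * μ i : ℤ)) : κ) = ((∑ i0, Θ i i0 * n none i0 : ℤ) : κ) := by
        rw [hce i]
      push_cast at h2
      rw [hp0, zero_mul, add_zero] at h2
      exact h2
    simp only [h1, Finset.sum_mul, Finset.mul_sum]
    rw [Finset.sum_comm]
    refine Finset.sum_congr rfl fun i0 _ => Finset.sum_congr rfl fun i _ => ?_
    ring
  have hcμ : ∀ (κ : Type u) [Field κ] [Algebra k κ] (i : I),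
      ((c i + p * μ i : ℤ) : κ) = (c i : κ) := by
    intro κ _ _ i
    have hp0 : (p : κ) = 0 := cast_zero (k := k) p κ
    push_cast
    rw [hp0, zero_mul, add_zero]
  -- the transversality
  have hsnc : ∀ t, SNC (M.A t) (fun o : Option I => o.elim (fe t) (M.x t)) := by
    intro t
    refine snc_option M t (fe t) (hfA t) ?_
    intro κ _ _ ψ hf h0
    obtain ⟨v, hv⟩ := hPS.ln t κ ψ
    obtain ⟨hC1, hC2⟩ := hC t κ ψ hf (hh' t)
    have h1 := hC2 v
    rw [h0, zero_mul, zero_add] at h1
    refine ⟨v.D, ?_, fun i hi => ?_⟩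
    · intro h2
      apply hv
      unfold om
      rw [Fintype.sum_option]
      simp only [Option.elim_none, Option.elim_some, Int.cast_zero, zero_mul, zero_add]
      rw [← h1, h2, mul_zero]
    · have h3 := v.hx (some i) (M.xA t i)
      change v.D.D ⟨M.x t i, M.xA t i⟩ = ψ ⟨M.x t i, M.xA t i⟩ * _ at h3
      rw [h3, hi, zero_mul]
  let M3 : LM (⊥ : Subalgebra k N) ⊤ T (Option I) :=
    addD M _ hF0 fe w (fun i => p * μ i + min (c i) 0) hfA hw hF hsnc
  have hM3A : ∀ t, M3.A t = M.A t := fun t => rfl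
  -- monomials
  have hmn3 : ∀ t (m0 : ℤ) (m : I → ℤ), ∏ o, M3.x t o ^ (o.elim m0 m : ℤ) =
      fe t ^ m0 * mn (M.x t) m := by
    intro t m0 m
    rw [Fintype.prod_option]
    rfl
  have hleB := hLf.ov.le
  have hpull : ∀ t (m : I0 → ℤ), algebraMap L N (∏ i, B.x (π t) i ^ m i) =
      mn (M.x t) (fun i => ∑ i0, Θ i i0 * m i0) := fun t m => mo_pull hLf.ov t m
  -- the lift of logarithmic tangent vectors
  have key : ∀ t (κ : Type u) [Field κ] [Algebra k κ] (ψ : M3.A t →ₐ[k] κ) (o : Option ι),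
      ∃ v : LT ψ (M3.x t),
        (∀ j : ι, om v (fun o' => o'.elim 0 fun i => ∑ i0, Θ i i0 * n (some j) i0)
          (hleB t _ (hN.hA (π t) (some j))) ≠ 0 ↔ o = some j) ∧
        (om v (fun o' => o'.elim 1 fun i => c i + p * μ i) (hh' t) ≠ 0 ↔ o = none) := by
    intro t κ _ _ ψ o
    let ψM : M.A t →ₐ[k] κ := ψ
    -- forms of the functions of the base
    have hform : ∀ (v : LT ψM (ox (y t) (M.x t))) (v0 : LT (ψM.comp (ci (hleB t))) (B.x (π t)))
        (hv1 : ∀ a (ha : a ∈ B.A (π t)), v.D.D ⟨algebraMap L N a, hleB t a ha⟩ = v0.D.D ⟨a, ha⟩)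
        (hv2 : ∀ i0, ∑ i, (Θ i i0 : κ) * v.e (some i) = v0.e i0) (m : I0 → ℤ) (b : L)
        (hb : b ∈ B.A (π t)) (e : Option I → κ) (he : ∀ i, e (some i) = v.e (some i)),
        v.D.D ⟨algebraMap L N b, hleB t b hb⟩ + ψM ⟨algebraMap L N b, hleB t b hb⟩ *
          ∑ o' : Option I, ((o'.elim 0 fun i => ∑ i0, Θ i i0 * m i0 : ℤ) : κ) * e o' =
        om v0 m hb := by
      intro v v0 hv1 hv2 m b hb e he
      unfold om
      rw [hv1 b hb, Fintype.sum_option]
      simp only [Option.elim_none, Option.elim_some, Int.cast_zero, zero_mul, zero_add]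
      have h1 : ∀ i, ((∑ i0, Θ i i0 * m i0 : ℤ) : κ) * e (some i) =
          ∑ i0, (m i0 : κ) * ((Θ i i0 : κ) * v.e (some i)) := by
        intro i
        rw [he i]
        push_cast
        rw [Finset.sum_mul]
        exact Finset.sum_congr rfl fun i0 _ => by ring
      rw [Finset.sum_congr rfl fun i _ => h1 i, Finset.sum_comm]
      congr 2
      refine Finset.sum_congr rfl fun i0 _ => ?_
      rw [← Finset.mul_sum, hv2 i0]
    obtain ⟨hC1, hC2⟩ := hC t κ ψM (hfA t) (hh' t)
    by_cases h0 : ψM ⟨fe t, hfA t⟩ = 0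
    · have hne : ψM ⟨h' t, hh' t⟩ ≠ 0 := hC1 h0
      rcases o with _ | j
      · -- the vector tangent to nothing
        refine ⟨⟨TV.zero ψM, fun o => o.elim 1 fun _ => 0, ?_⟩, ?_, ?_⟩
        · rintro (_ | i) hi
          · change (0 : κ) = ψM ⟨fe t, hi⟩ * 1
            rw [h0, zero_mul]
          · change (0 : κ) = _ * 0
            rw [mul_zero]
        · intro j
          refine ⟨fun h1 => ?_, fun h1 => by simp at h1⟩
          exfalso
          apply h1
          unfold om
          rw [Fintype.sum_option]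
          simp only [Option.elim_none, Option.elim_some, Int.cast_zero, zero_mul, mul_zero,
            Finset.sum_const_zero, add_zero]
          rfl
        · refine ⟨fun _ => rfl, fun _ => ?_⟩
          unfold om
          rw [Fintype.sum_option]
          simp only [Option.elim_none, Option.elim_some, Int.cast_one, mul_zero,
            Finset.sum_const_zero, add_zero, mul_one]
          have h2 : (TV.zero ψM).D ⟨h' t, hh' t⟩ = 0 := rfl
          change (TV.zero ψM).D ⟨h' t, hh' t⟩ + ψM ⟨h' t, hh' t⟩ ≠ 0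
          rw [h2, zero_add]
          exact hne
      · obtain ⟨v0, hv0, hv0'⟩ := hN.ln (π t) κ (ψM.comp (ci (hleB t))) (some j)
        obtain ⟨v, hv1, hv2⟩ := hLf.lf t κ ψM v0
        have homn : om v0 (n none) (hN.hA (π t) none) = 0 := hv0' none (by simp)
        have hom : v.D.D ⟨algebraMap L N (h (π t) none), hPS.hA t⟩ +
            ψM ⟨algebraMap L N (h (π t) none), hPS.hA t⟩ * ∑ i, (c i : κ) * v.e (some i) = 0 := by
          rw [← homn]
          unfold om
          rw [hce' κ, hv1 _ (hN.hA (π t) none)]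
          congr 2
          exact Finset.sum_congr rfl fun i0 _ => by rw [hv2]
        have h3 := hC2 v
        rw [hom, h0, zero_mul, zero_add] at h3
        have hDf : v.D.D ⟨fe t, hfA t⟩ = 0 := (mul_eq_zero.1 h3).resolve_left hne
        let ε : κ := -(v.D.D ⟨h' t, hh' t⟩ + ψM ⟨h' t, hh' t⟩ * ∑ i, (c i : κ) * v.e (some i)) *
          (ψM ⟨h' t, hh' t⟩)⁻¹
        refine ⟨⟨v.D, fun o => o.elim ε fun i => v.e (some i), ?_⟩, ?_, ?_⟩
        · rintro (_ | i) hi
          · change v.D.D ⟨fe t, hi⟩ = ψM ⟨fe t, hi⟩ * ε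
            rw [hDf, h0, zero_mul]
          · exact v.hx (some i) hi
        · intro l
          have h4 : om (⟨v.D, fun o => o.elim ε fun i => v.e (some i), by
              rintro (_ | i) hi
              · change v.D.D ⟨fe t, hi⟩ = ψM ⟨fe t, hi⟩ * ε
                rw [hDf, h0, zero_mul]
              · exact v.hx (some i) hi⟩ : LT ψ (M3.x t))
              (fun o' => o'.elim 0 fun i => ∑ i0, Θ i i0 * n (some l) i0)
              (hleB t _ (hN.hA (π t) (some l))) = om v0 (n (some l)) (hN.hA (π t) (some l)) :=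
            hform v v0 hv1 hv2 _ _ _ _ fun i => rfl
          rw [h4]
          constructor
          · intro h5
            by_contra h6
            exact h5 (hv0' (some l) fun h7 => h6 h7.symm)
          · intro h5
            rw [← h5]
            exact hv0
        · refine ⟨fun h5 => ?_, fun h5 => by simp at h5⟩
          exfalso
          apply h5
          unfold om
          rw [Fintype.sum_option]
          simp only [Option.elim_none, Option.elim_some, Int.cast_one, one_mul]
          rw [Finset.sum_congr rfl fun i _ => by rw [hcμ κ i]]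
          change v.D.D ⟨h' t, hh' t⟩ + ψM ⟨h' t, hh' t⟩ * (ε + ∑ i, (c i : κ) * v.e (some i)) = 0
          simp only [ε]
          field_simp
          ring
    · -- outside of the divisor
      obtain ⟨v0, hv0, hv0'⟩ := hN.ln (π t) κ (ψM.comp (ci (hleB t))) o
      obtain ⟨v, hv1, hv2⟩ := hLf.lf t κ ψM v0
      have hom : v.D.D ⟨algebraMap L N (h (π t) none), hPS.hA t⟩ +
          ψM ⟨algebraMap L N (h (π t) none), hPS.hA t⟩ * ∑ i, (c i : κ) * v.e (some i) =
          om v0 (n none) (hN.hA (π t) none) := by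
        unfold om
        rw [hce' κ, hv1 _ (hN.hA (π t) none)]
        congr 2
        exact Finset.sum_congr rfl fun i0 _ => by rw [hv2]
      have h3 := hC2 v
      rw [hom] at h3
      let ε : κ := v.D.D ⟨fe t, hfA t⟩ * (ψM ⟨fe t, hfA t⟩)⁻¹
      have hx3 : ∀ (o : Option I) (hi : M3.x t o ∈ M3.A t), v.D.D ⟨M3.x t o, hi⟩ =
          ψ ⟨M3.x t o, hi⟩ * (o.elim ε fun i => v.e (some i)) := by
        rintro (_ | i) hi
        · change v.D.D ⟨fe t, hi⟩ = ψM ⟨fe t, hi⟩ * ε
          simp only [ε]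
          field_simp
        · exact v.hx (some i) hi
      refine ⟨⟨v.D, fun o => o.elim ε fun i => v.e (some i), hx3⟩, ?_, ?_⟩
      · intro l
        have h4 : om (⟨v.D, fun o => o.elim ε fun i => v.e (some i), hx3⟩ : LT ψ (M3.x t))
            (fun o' => o'.elim 0 fun i => ∑ i0, Θ i i0 * n (some l) i0)
            (hleB t _ (hN.hA (π t) (some l))) = om v0 (n (some l)) (hN.hA (π t) (some l)) :=
          hform v v0 hv1 hv2 _ _ _ _ fun i => rfl
        rw [h4]
        constructor
        · intro h5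
          by_contra h6
          exact h5 (hv0' (some l) fun h7 => h6 h7.symm)
        · intro h5
          rw [← h5]
          exact hv0
      · have h4 : om (⟨v.D, fun o => o.elim ε fun i => v.e (some i), hx3⟩ : LT ψ (M3.x t))
            (fun o' => o'.elim 1 fun i => c i + p * μ i) (hh' t) =
            (ψM ⟨fe t, hfA t⟩)⁻¹ * om v0 (n none) (hN.hA (π t) none) := by
          unfold om
          rw [Fintype.sum_option]
          simp only [Option.elim_none, Option.elim_some, Int.cast_one, one_mul]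
          rw [Finset.sum_congr rfl fun i _ => by rw [hcμ κ i]]
          change v.D.D ⟨h' t, hh' t⟩ + ψM ⟨h' t, hh' t⟩ * (ε + ∑ i, (c i : κ) * v.e (some i)) =
            (ψM ⟨fe t, hfA t⟩)⁻¹ * om v0 (n none) (hN.hA (π t) none)
          rw [← h3]
          simp only [ε]
          field_simp
          ring
        rw [h4]
        constructor
        · intro h5
          by_contra h6
          exact h5 (by rw [hv0' none fun h7 => h6 h7.symm, mul_zero])
        · intro h5
          rw [← h5]
          exact mul_ne_zero (inv_ne_zero h0) hv0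
  refine ⟨T, Option I, inferInstance, inferInstance, M3,
    fun o => o.elim (fun o' => o'.elim 1 fun i => c i + p * μ i)
      fun j o' => o'.elim 0 fun i => ∑ i0, Θ i i0 * n (some j) i0,
    fun t o => o.elim (a' t) fun j => algebraMap L N (a (π t) (some j)),
    fun t o => o.elim (h' t) fun j => algebraMap L N (h (π t) (some j)),
    Sum.elim (fun b o => o.elim 0 (Γ b)) (fun _ o => o.elim 1 fun i => p * μ i + min (c i) 0),
    ⟨?_, ?_, ?_⟩, ?_, ?_⟩
  · rintro t (_ | j)
    · exact hh' t
    · exact hleB t _ (hN.hA (π t) (some j))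
  · rintro t (_ | j)
    · change algebraMap L N (f none) = a' t ^ p +
        (∏ o : Option I, M3.x t o ^ (o.elim 1 fun i => c i + p * μ i : ℤ)) * h' t
      rw [hmn3, zpow_one]
      conv_lhs => rw [hNF t]
      ring
    · change algebraMap L N (f (some j)) = (algebraMap L N (a (π t) (some j))) ^ p +
        (∏ o : Option I, M3.x t o ^ (o.elim 0 fun i => ∑ i0, Θ i i0 * n (some j) i0 : ℤ)) *
          algebraMap L N (h (π t) (some j))
      rw [hmn3, zpow_zero, one_mul, ← hpull, ← map_pow, ← map_mul, ← map_add]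
      exact congrArg _ (hN.eq (π t) (some j))
  · intro t κ _ _ ψ o
    obtain ⟨v, h1, h2⟩ := key t κ ψ o
    refine ⟨v, ?_, ?_⟩
    · rcases o with _ | j
      · exact h2.2 rfl
      · exact (h1 j).2 rfl
    · rintro (_ | l) hl
      · by_contra h3
        exact hl (h2.1 h3).symm
      · by_contra h3
        exact hl ((h1 l).1 h3).symm
  · rintro (b | _) t
    · obtain ⟨w, hw0, hwA, hwA', h1⟩ := hFn b t
      refine ⟨w, hw0, hwA, hwA', ?_⟩
      change algebraMap L N (g b) = w * ∏ o : Option I, M3.x t o ^ (o.elim 0 (Γ b) : ℤ)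
      rw [hmn3, zpow_zero, one_mul]
      exact h1
    · refine ⟨w t, (hw t).1, (hw t).2.1, (hw t).2.2, ?_⟩
      change Z ^ p - algebraMap L N (f none) = w t *
        ∏ o : Option I, M3.x t o ^ (o.elim 1 fun i => p * μ i + min (c i) 0 : ℤ)
      rw [hmn3, zpow_one]
      conv_lhs => rw [hF t]
      ring
  · intro t x
    by_cases hx0 : x = 0
    · exact ⟨0, (M.A t).zero_mem, 1, (M.A t).one_mem, one_ne_zero, by rw [hx0, zero_mul]⟩
    rcases hQ x with hx | hx
    · obtain ⟨α, hα, β, hβ, hβ0, hβQ, hαβ⟩ := hLq t x hx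
      exact ⟨α, hα, β, hβ, hβ0, by rw [← hαβ, mul_assoc, mul_inv_cancel₀ hβ0, mul_one]⟩
    · obtain ⟨α, hα, β, hβ, hβ0, hβQ, hαβ⟩ := hLq t _ hx
      refine ⟨β, hβ, α, hα, ?_, ?_⟩
      · rw [← hαβ]
        exact mul_ne_zero (inv_ne_zero hx0) hβ0
      · rw [← hαβ]
        field_simp

end pencil

end Pool.Agent.KS6_21.P1
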