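import Pool.Agent.KS6_21.P1.Pencil
import Pool.Graph.R_seed8.TH188.WQ.Surf

/-!
The pencil as an operation on fields with a joint normal form.
-/

set_option autoImplicit false
set_option linter.unusedVariables false
set_option linter.unusedSectionVars false

universe u

open Polynomial Pool.Agent.W558 Pool.Agent.W177.WD Pool.Agent.TH188.WQ Pool.Agent.W498.Tor

namespace Pool.Agent.KS6_21.P1

section surj

variable {p : ℕ} {k K K1 : Type u} [Field k] [Field K] [Field K1] [Algebra k K] [Algebra k K1]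
  [Algebra K K1] [IsScalarTower k K K1] {ι G : Type}

/-- Transport along isomorphisms. -/
theorem gm_surj (hsurj : Function.Surjective (algebraMap K K1)) {f : ι → K} {g : G → K}
    (h : GM p k f g) :
    GM p k (fun j => algebraMap K K1 (f j)) (fun b => algebraMap K K1 (g b)) := by
  classical
  obtain ⟨T, I, hT, hI, M, n, a, h, Γ, hN, hG, hR⟩ := h
  have hinj : Function.Injective (em k K K1) := em_inj
  have hmon : ∀ t (m : I → ℤ), ∏ i, (mapLM (K := K1) M).x t i ^ m i =
      em k K K1 (∏ i, M.x t i ^ m i) := by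
    intro t m
    rw [map_prod]
    refine Finset.prod_congr rfl fun i _ => ?_
    rw [map_zpow₀]
    rfl
  refine ⟨T, I, hT, hI, mapLM (K := K1) M, n, fun t j => em k K K1 (a t j),
    fun t j => em k K K1 (h t j), Γ, ⟨fun t j => ⟨_, hN.hA t j, rfl⟩, fun t j => ?_, ?_⟩, ?_, ?_⟩
  · rw [hmon, ← map_pow, ← map_mul, ← map_add]
    exact congrArg (em k K K1) (hN.eq t j)
  · intro t κ _ _ φ j
    obtain ⟨v, hv1, hv2⟩ := hN.ln t κ (φ.comp (eqv (K := K1) (M.A t)).toAlgHom) j
    obtain ⟨v', he, hD⟩ := exists_lt M t φ v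
    have h1 : ∀ l, om v' (n l) (show em k K K1 (h t l) ∈ (mapLM (K := K1) M).A t from
        ⟨_, hN.hA t l, rfl⟩) = om v (n l) (hN.hA t l) := by
      intro l
      unfold om
      rw [he, hD _ (hN.hA t l)]
      congr 1
    exact ⟨v', by rw [h1]; exact hv1, fun l hl => by rw [h1]; exact hv2 l hl⟩
  · intro b t
    obtain ⟨w, hw0, hw, hw', h1⟩ := hG b t
    refine ⟨em k K K1 w, (map_ne_zero_iff _ hinj).2 hw0, ⟨w, hw, rfl⟩,
      ⟨w⁻¹, hw', map_inv₀ (em k K K1) w⟩, ?_⟩
    rw [hmon, ← map_mul]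
    exact congrArg (em k K K1) h1
  · intro t x
    obtain ⟨l, rfl⟩ := hsurj x
    obtain ⟨c, hc, d, hd, hd0, h1⟩ := hR t l
    refine ⟨em k K K1 c, ⟨c, hc, rfl⟩, em k K K1 d, ⟨d, hd, rfl⟩,
      (map_ne_zero_iff _ hinj).2 hd0, ?_⟩
    change em k K K1 l = _
    rw [h1, map_mul, map_inv₀]

end surj

section nepow

variable {p : ℕ} [Fact p.Prime] {k L : Type u} [Field k] [CharP k p] [Field L] [Algebra k L]

/-- The normal form of `f` shows that `f` is not a `p`-th power. -/
theorem nf_ne_pow {T I ι : Type} [Fintype I] (M : LM (⊥ : Subalgebra k L) ⊤ T I) (hR : Frc M)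
    {f : ι → L} {n : ι → I → ℤ} {a h : T → ι → L} (hN : NFJ p M f n a h) (j : ι) (b : L) :
    b ^ p ≠ f j := by
  classical
  have hp : p.Prime := Fact.out
  have hcL : CharP L p := charP_of_injective_algebraMap (algebraMap k L).injective p
  intro hb
  obtain ⟨t⟩ := Pool.Agent.TH188.WQ.LM.nonempty M
  let φ : M.A t →ₐ[k] L := (M.A t).val
  obtain ⟨v, hv, -⟩ := hN.ln t L φ j
  apply hv
  have hx0 := M.x0 t
  have hxA := M.xA t
  -- the positive and the negative part of the monomial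
  let np : I → ℤ := fun i => max (n j i) 0
  let nm : I → ℤ := fun i => max (-n j i) 0
  have hnp : mn (M.x t) np ∈ M.A t := mn_mem hxA fun i => Or.inl (le_max_right _ _)
  have hnm : mn (M.x t) nm ∈ M.A t := mn_mem hxA fun i => Or.inl (le_max_right _ _)
  have hnn : mn (M.x t) (n j) = mn (M.x t) np * (mn (M.x t) nm)⁻¹ := by
    rw [← mn_sub hx0]
    unfold mn
    refine Finset.prod_congr rfl fun i _ => ?_
    congr 1
    simp only [np, nm]
    omega
  have hnm0 : mn (M.x t) nm ≠ 0 := mn_ne hx0 nm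
  have hnp0 : mn (M.x t) np ≠ 0 := mn_ne hx0 np
  obtain ⟨α, hα, β, hβ, hβ0, hc⟩ := hR t (b - a t j)
  have heq : (b - a t j) ^ p = mn (M.x t) (n j) * h t j := by
    rw [sub_pow_char, hb, hN.eq t j]
    unfold mn
    ring
  -- the relation in the chart
  let X1 : M.A t := ⟨mn (M.x t) np, hnp⟩
  let X2 : M.A t := ⟨mn (M.x t) nm, hnm⟩
  let H : M.A t := ⟨h t j, hN.hA t j⟩
  let α' : M.A t := ⟨α, hα⟩
  let β' : M.A t := ⟨β, hβ⟩
  have hrel : β' ^ p * (X1 * H) = α' ^ p * X2 := by
    apply Subtype.ext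
    change β ^ p * (mn (M.x t) np * h t j) = α ^ p * mn (M.x t) nm
    rw [hc, hnn, mul_pow, inv_pow] at heq
    have := pow_ne_zero p hβ0
    field_simp at heq
    linear_combination -heq
  have hLx : ∀ i, LG v.D (M.x t i) (v.e i) := fun i => ⟨M.xA t i, v.hx i (M.xA t i)⟩
  have hX1 : v.D.D X1 = φ X1 * ∑ i, (np i : L) * v.e i :=
    (LG.prod _ _ _ fun i _ => (hLx i).zpow (hx0 i) _ (Or.inl (le_max_right _ _))).eq hnp
  have hX2 : v.D.D X2 = φ X2 * ∑ i, (nm i : L) * v.e i :=
    (LG.prod _ _ _ fun i _ => (hLx i).zpow (hx0 i) _ (Or.inl (le_max_right _ _))).eq hnm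
  have hDp : ∀ z : M.A t, v.D.D (z ^ p) = 0 := by
    intro z
    rw [tv_pow, CharP.cast_eq_zero L p, zero_mul, zero_mul]
  have h1 := congrArg v.D.D hrel
  rw [v.D.leib, v.D.leib (α' ^ p), hDp, hDp, v.D.leib, hX1, hX2, mul_zero, mul_zero, add_zero,
    add_zero] at h1
  have h2 : φ (β' ^ p) * (φ X1 * φ H) = φ (α' ^ p) * φ X2 := by
    rw [← map_mul, ← map_mul, ← map_mul]
    exact congrArg φ hrel
  have hφβ : φ (β' ^ p) ≠ 0 := pow_ne_zero p hβ0
  have hφX : φ X1 ≠ 0 := hnp0
  have h3 : ∑ i, (n j i : L) * v.e i = ∑ i, (np i : L) * v.e i - ∑ i, (nm i : L) * v.e i := by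
    rw [← Finset.sum_sub_distrib]
    refine Finset.sum_congr rfl fun i _ => ?_
    rw [← sub_mul, ← Int.cast_sub]
    congr 2
    simp only [np, nm]
    omega
  unfold om
  rw [h3]
  have h4 : (φ (β' ^ p) * φ X1) * (v.D.D H + φ H * (∑ i, (np i : L) * v.e i -
      ∑ i, (nm i : L) * v.e i)) = 0 := by
    linear_combination h1 - (∑ i, (nm i : L) * v.e i) * h2
  exact (mul_eq_zero.1 h4).resolve_left (mul_ne_zero hφβ hφX)

end nepow

section pencil

variable (p : ℕ) [Fact p.Prime] {k L : Type u} [Field k] [PerfectField k] [CharP k p] [Field L]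
  [Algebra k L]

/-- The pencil over the rational function field. -/
theorem pencil2 {G ι : Type} (f : Option ι → L) (g : G → L) (hM : GM p k f g) :
    GM p k (fun o => algebraMap L (FractionRing L[X]) (f o))
      (Sum.elim (fun b => algebraMap L (FractionRing L[X]) (g b))
        (fun _ : Unit => (algebraMap L[X] (FractionRing L[X]) X) ^ p -
          algebraMap L (FractionRing L[X]) (f none))) := by
  classical
  have hp : p.Prime := Fact.out
  obtain ⟨T, I, hT, hI, M, n, a, h, Γ, hN, hG, hR⟩ := hM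
  have hf : ∀ b : L, b ^ p ≠ f none := nf_ne_pow M hR hN none
  have hirr : Irreducible (X ^ p - C (f none) : L[X]) := X_pow_sub_C_irreducible_of_prime hp hf
  have hF : Prime (X ^ p - C (f none) : L[X]) := hirr.prime
  let N := FractionRing L[X]
  let Z : N := algebraMap L[X] N X
  have hZ : ∀ P : L[X], aeval Z P = algebraMap L[X] N P := by
    intro P
    have h1 : aeval Z = IsScalarTower.toAlgHom L L[X] N := by
      ext; simp [Z]
    rw [h1]; rfl
  have htr : Transcendental L Z := by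
    rw [transcendental_iff]
    intro P hP
    rw [hZ] at hP
    exact (FaithfulSMul.algebraMap_eq_zero_iff L[X] N).1 hP
  have hfr : ∀ x : N, ∃ P P' : L[X], P' ≠ 0 ∧ x * aeval Z P' = aeval Z P := by
    intro x
    obtain ⟨P, P', hP, rfl⟩ := IsFractionRing.div_surjective (A := L[X]) x
    have h0 := nonZeroDivisors.ne_zero hP
    refine ⟨P, P', h0, ?_⟩
    rw [hZ, hZ, div_mul_cancel₀ _ (alg_ne_zero h0)]
  have hQ : IsQ p Z (f none) (FQ (k := k) hF) := by
    intro x
    simp only [hZ]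
    exact mem_FQ hF
  have hN1 : NFH p M (f none) (n none) (fun t => a t none) (fun t => h t none) :=
    ⟨fun t => hN.hA t none, fun t => hN.eq t none, fun t κ _ _ φ => by
      obtain ⟨v, hv, -⟩ := hN.ln t κ φ none
      exact ⟨v, hv⟩⟩
  obtain ⟨T1, I1, hT1, hI1, M1, y1, c1, μ1, Γ1, π1, Θ1, hP1, hL1, hF1, hlf1, hce1⟩ :=
    wq_bun p k L N T I G M (f none) (n none) (fun t => a t none) (fun t => h t none) g Γ hN1 hR hG
      hf Z htr hfr (FQ (k := k) hF) hQ
  obtain ⟨T2, I2, hT2, hI2, M2, y2, c2, μ2, Γ2, π2, Θ2, hP2, hL2, hF2, hfin, hov2, hce2⟩ :=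
    wq_ppr p k N T1 I1 G M1 _ (FQ (k := k) hF) y1 (fun t => algebraMap L N (h (π1 t) none)) c1 μ1
      (fun b => algebraMap L N (g b)) Γ1 hP1 hL1 hF1
  have eF : Z ^ p - algebraMap L N (f none) = algebraMap L[X] N (X ^ p - C (f none)) := by
    rw [← hZ, map_sub, map_pow, aeval_X, aeval_C]
  have hov : Ovr M M2 (fun t => π1 (π2 t)) (fun i2 i => ∑ i1, Θ2 i2 i1 * Θ1 i1 i) := by
    refine ⟨?_, ?_, ?_⟩
    · intro t a ha
      exact hov2.le t (hlf1.ov.le (π2 t) a ha)
    · intro t i
      rw [hlf1.ov.x (π2 t) i]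
      have h1 : ∀ i1, M1.x (π2 t) i1 ^ Θ1 i1 i = ∏ i2, M2.x t i2 ^ (Θ2 i2 i1 * Θ1 i1 i) := by
        intro i1
        rw [hov2.x, ← Finset.prod_zpow]
        exact Finset.prod_congr rfl fun i2 _ => by rw [zpow_mul]
      rw [Finset.prod_congr rfl fun i1 _ => h1 i1, Finset.prod_comm]
      refine Finset.prod_congr rfl fun i2 _ => ?_
      rw [Pool.Agent.W349.WD.Sum.zpow_sum' (M2.x0 t i2)]
    · intro i2 i
      exact Finset.sum_nonneg fun i1 _ => mul_nonneg (hov2.Θ0 i2 i1) (hlf1.ov.Θ0 i1 i)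
  have hlf : LfP M M2 y2 (fun t => π1 (π2 t)) (fun i2 i => ∑ i1, Θ2 i2 i1 * Θ1 i1 i) := by
    refine ⟨hov, ?_⟩
    intro t κ _ _ φ v0
    obtain ⟨v1, hv1, hv1'⟩ := hlf1.lf (π2 t) κ (φ.comp (Subalgebra.inclusion (hov2.le t))) v0
    obtain ⟨v2, hv2, hv2'⟩ := hov2.lt t κ φ v1
    refine ⟨v2, ?_, ?_⟩
    · intro a ha
      rw [← hv1 a ha]
      exact hv2 _ _
    · intro i
      rw [← hv1' i]
      have h1 : ∀ i2, ((∑ i1, Θ2 i2 i1 * Θ1 i1 i : ℤ) : κ) * v2.e (some i2) =
          ∑ i1, (Θ1 i1 i : κ) * ((Θ2 i2 i1 : κ) * v2.e (some i2)) := by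
        intro i2
        push_cast
        rw [Finset.sum_mul]
        exact Finset.sum_congr rfl fun i1 _ => by ring
      rw [Finset.sum_congr rfl fun i2 _ => h1 i2, Finset.sum_comm]
      refine Finset.sum_congr rfl fun i1 _ => ?_
      rw [← Finset.mul_sum, hv2' i1]
  have hce : ∀ i2, c2 i2 + p * μ2 i2 = ∑ i, (∑ i1, Θ2 i2 i1 * Θ1 i1 i) * n none i := by
    intro i2
    rw [hce2]
    have h1 : ∀ i, (∑ i1, Θ2 i2 i1 * Θ1 i1 i) * n none i =
        ∑ i1, Θ2 i2 i1 * (Θ1 i1 i * n none i) := by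
      intro i
      rw [Finset.sum_mul]
      exact Finset.sum_congr rfl fun i1 _ => by ring
    rw [Finset.sum_congr rfl fun i _ => h1 i, Finset.sum_comm]
    refine Finset.sum_congr rfl fun i1 _ => ?_
    rw [hce1, Finset.mul_sum]
  exact pencil1 p M f n a h hN g M2 Z (FQ (k := k) hF) y2 c2 μ2 (fun t => π1 (π2 t)) _ Γ2 hP2 hL2
    hF2 hfin hlf hce (by rw [eF]; exact alg_ne_zero hF.ne_zero) (FQ_total hF)

/-- **The pencil.** -/
theorem pencil3 {N : Type u} [Field N] [Algebra k N] [Algebra L N] [IsScalarTower k L N]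
    {G ι : Type} (f : Option ι → L) (g : G → L) (hM : GM p k f g) (Z : N)
    (hZ : Transcendental L Z) (hgen : IntermediateField.adjoin L {Z} = ⊤) :
    GM p k (fun o => algebraMap L N (f o))
      (Sum.elim (fun b => algebraMap L N (g b))
        (fun _ : Unit => Z ^ p - algebraMap L N (f none))) := by
  classical
  have hinj : Function.Injective (aeval Z : L[X] →ₐ[L] N) := transcendental_iff_injective.1 hZ
  let σ : FractionRing L[X] →ₐ[L] N := IsFractionRing.liftAlgHom hinj
  have hσ : ∀ P : L[X], σ (algebraMap L[X] _ P) = aeval Z P := fun P =>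
    IsFractionRing.lift_algebraMap (g := (aeval Z : L[X] →ₐ[L] N).toRingHom) hinj P
  let _ : Algebra (FractionRing L[X]) N := σ.toRingHom.toAlgebra
  have hsL : IsScalarTower L (FractionRing L[X]) N :=
    IsScalarTower.of_algebraMap_eq fun x => (σ.commutes x).symm
  have hsk : IsScalarTower k (FractionRing L[X]) N := IsScalarTower.of_algebraMap_eq fun x => by
    rw [IsScalarTower.algebraMap_apply k L N, IsScalarTower.algebraMap_apply L (FractionRing L[X]) N,
      ← IsScalarTower.algebraMap_apply k L (FractionRing L[X])]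
  have hsurj : Function.Surjective (algebraMap (FractionRing L[X]) N) := by
    have h1 : IntermediateField.adjoin L {Z} ≤ σ.fieldRange := by
      rw [IntermediateField.adjoin_simple_le_iff]
      exact ⟨algebraMap L[X] _ X, by
        change σ _ = _
        rw [hσ, aeval_X]⟩
    rw [hgen] at h1
    intro y
    obtain ⟨x, hx⟩ := h1 (show y ∈ (⊤ : IntermediateField L N) from trivial)
    exact ⟨x, hx⟩
  have h2 := gm_surj hsurj (pencil2 p f g hM)
  have hZ' : algebraMap (FractionRing L[X]) N (algebraMap L[X] _ X) = Z := by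
    change σ _ = _
    rw [hσ, aeval_X]
  have e1 : (fun o => algebraMap (FractionRing L[X]) N (algebraMap L (FractionRing L[X]) (f o))) =
      fun o => algebraMap L N (f o) :=
    funext fun o => (IsScalarTower.algebraMap_apply L (FractionRing L[X]) N _).symm
  have e2 : (fun b => algebraMap (FractionRing L[X]) N
      ((Sum.elim (fun b => algebraMap L (FractionRing L[X]) (g b))
        (fun _ : Unit => (algebraMap L[X] (FractionRing L[X]) X) ^ p -
          algebraMap L (FractionRing L[X]) (f none)) : G ⊕ Unit → FractionRing L[X]) b)) =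
      Sum.elim (fun b => algebraMap L N (g b))
        (fun _ : Unit => Z ^ p - algebraMap L N (f none)) := by
    funext b
    rcases b with b | b
    · exact (IsScalarTower.algebraMap_apply L (FractionRing L[X]) N _).symm
    · simp only [Sum.elim_inr]
      rw [map_sub, map_pow, hZ', ← IsScalarTower.algebraMap_apply L (FractionRing L[X]) N]
  rw [e1, e2] at h2
  exact h2

end pencil

end Pool.Agent.KS6_21.P1
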